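import Mathlib
import Pool.Agent.H16.MC.Khin

set_option autoImplicit false
set_option linter.unusedSectionVars false

namespace Pool.Agent.H16.GC
open Finset
open Pool.Agent.H16.MC (Cot two_pow)

universe u

/-- an isometric action of `ℤ^n` on a normed space, extended to a commutative algebra -/
structure Act (n : ℕ) (K : Type) [CommRing K] [Algebra ℝ K] (Z : Type u) [NormedAddCommGroup Z]
    [NormedSpace ℝ Z] where
  T : K →ₐ[ℝ] Module.End ℝ Z
  X : (Fin n → ℤ) → K
  X_zero : X 0 = 1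
  X_add : ∀ v w, X (v + w) = X v * X w
  iso : ∀ v z, ‖T (X v) z‖ = ‖z‖

variable {n : ℕ} {K : Type} [CommRing K] [Algebra ℝ K] {Z : Type u} [NormedAddCommGroup Z]
    [NormedSpace ℝ Z] (a : Act n K Z)

/-- operator bound -/
def Bd (ν : K) (C : ℝ) : Prop := ∀ z, ‖a.T ν z‖ ≤ C * ‖z‖

variable {a}

lemma T_mul (ν μ : K) (z : Z) : a.T (ν * μ) z = a.T ν (a.T μ z) := by
  rw [map_mul]; rfl

lemma T_one (z : Z) : a.T 1 z = z := by rw [map_one]; rfl

lemma T_add (ν μ : K) (z : Z) : a.T (ν + μ) z = a.T ν z + a.T μ z := by rw [map_add]; rfl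

lemma T_sub (ν μ : K) (z : Z) : a.T (ν - μ) z = a.T ν z - a.T μ z := by rw [map_sub]; rfl

lemma T_smul (r : ℝ) (ν : K) (z : Z) : a.T (r • ν) z = r • a.T ν z := by rw [map_smul]; rfl

lemma T_sum {ι : Type*} (s : Finset ι) (ν : ι → K) (z : Z) :
    a.T (∑ i ∈ s, ν i) z = ∑ i ∈ s, a.T (ν i) z := by
  rw [map_sum, LinearMap.sum_apply]

lemma Bd.nonneg_or {ν : K} {C : ℝ} (h : Bd a ν C) (z : Z) : 0 ≤ C * ‖z‖ :=
  (norm_nonneg _).trans (h z)

lemma Bd.mono {ν : K} {C D : ℝ} (h : Bd a ν C) (hCD : C ≤ D) : Bd a ν D := fun z =>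
  (h z).trans (mul_le_mul_of_nonneg_right hCD (norm_nonneg _))

lemma Bd.X (v : Fin n → ℤ) : Bd a (a.X v) 1 := fun z => by rw [one_mul, a.iso]

lemma Bd.one : Bd a 1 1 := fun z => by rw [T_one, one_mul]

lemma Bd.mul {ν μ : K} {C D : ℝ} (h : Bd a ν C) (h' : Bd a μ D) (hC : 0 ≤ C) :
    Bd a (ν * μ) (C * D) := fun z => by
  rw [T_mul]
  refine (h _).trans ?_
  rw [mul_assoc]
  exact mul_le_mul_of_nonneg_left (h' z) hC

lemma Bd.add {ν μ : K} {C D : ℝ} (h : Bd a ν C) (h' : Bd a μ D) : Bd a (ν + μ) (C + D) := fun z => by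
  rw [T_add, add_mul]
  exact (norm_add_le _ _).trans (add_le_add (h z) (h' z))

lemma Bd.sub {ν μ : K} {C D : ℝ} (h : Bd a ν C) (h' : Bd a μ D) : Bd a (ν - μ) (C + D) := fun z => by
  rw [T_sub, add_mul]
  exact (norm_sub_le _ _).trans (add_le_add (h z) (h' z))

lemma Bd.smul {ν : K} {C : ℝ} (h : Bd a ν C) (r : ℝ) : Bd a (r • ν) (|r| * C) := fun z => by
  rw [T_smul, norm_smul, Real.norm_eq_abs, mul_assoc]
  exact mul_le_mul_of_nonneg_left (h z) (abs_nonneg _)

lemma Bd.sum {ι : Type*} (s : Finset ι) {ν : ι → K} {C : ι → ℝ} (h : ∀ i ∈ s, Bd a (ν i) (C i)) :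
    Bd a (∑ i ∈ s, ν i) (∑ i ∈ s, C i) := fun z => by
  rw [T_sum, Finset.sum_mul]
  exact (norm_sum_le _ _).trans (Finset.sum_le_sum fun i hi => h i hi z)

lemma Bd.prod {ι : Type*} (s : Finset ι) {ν : ι → K} {C : ι → ℝ} (h : ∀ i ∈ s, Bd a (ν i) (C i))
    (hC : ∀ i ∈ s, 0 ≤ C i) : Bd a (∏ i ∈ s, ν i) (∏ i ∈ s, C i) := by
  classical
  induction s using Finset.induction_on with
  | empty => simpa using Bd.one
  | insert i s hi ih =>
    rw [Finset.prod_insert hi, Finset.prod_insert hi]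
    exact (h i (Finset.mem_insert_self i s)).mul
      (ih (fun j hj => h j (Finset.mem_insert_of_mem hj))
        (fun j hj => hC j (Finset.mem_insert_of_mem hj))) (hC i (Finset.mem_insert_self i s))

variable (a) in
/-- the cost of a displacement -/
noncomputable def cst (z : Z) (v : Fin n → ℤ) : ℝ := ‖a.T (a.X v - 1) z‖

lemma cst_nonneg (z : Z) (v : Fin n → ℤ) : 0 ≤ cst a z v := norm_nonneg _

lemma cst_zero (z : Z) : cst a z 0 = 0 := by
  unfold cst; rw [a.X_zero, sub_self, map_zero]; simp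

lemma cst_add (z : Z) (v w : Fin n → ℤ) : cst a z (v + w) ≤ cst a z v + cst a z w := by
  unfold cst
  have e : a.X (v + w) - 1 = (a.X v - 1) + a.X v * (a.X w - 1) := by rw [a.X_add]; ring
  rw [e, T_add, T_mul]
  exact (norm_add_le _ _).trans (add_le_add le_rfl (le_of_eq (a.iso _ _)))

lemma cst_neg (z : Z) (v : Fin n → ℤ) : cst a z (-v) = cst a z v := by
  unfold cst
  have h1 : a.X (-v) * a.X v = 1 := by rw [← a.X_add, neg_add_cancel, a.X_zero]
  have e : a.X v - 1 = -(a.X v * (a.X (-v) - 1)) := by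
    have h2 : a.X v * a.X (-v) = 1 := by rw [mul_comm]; exact h1
    rw [mul_sub, h2]; ring
  rw [e, map_neg, LinearMap.neg_apply, norm_neg, T_mul, a.iso]

lemma cst_sub (z : Z) (v w : Fin n → ℤ) : cst a z (v - w) ≤ cst a z v + cst a z w := by
  rw [sub_eq_add_neg]
  exact (cst_add z v (-w)).trans (by rw [cst_neg])

lemma cst_nsmul (z : Z) (v : Fin n → ℤ) (k : ℕ) : cst a z (k • v) ≤ k * cst a z v := by
  induction k with
  | zero => simp [cst_zero]
  | succ k ih =>
    rw [succ_nsmul]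
    refine (cst_add z _ v).trans ?_
    push_cast
    linarith

lemma cst_T {ν : K} {C : ℝ} (h : Bd a ν C) (z : Z) (v : Fin n → ℤ) :
    cst a (a.T ν z) v ≤ C * cst a z v := by
  unfold cst
  have e : a.T (a.X v - 1) (a.T ν z) = a.T ν (a.T (a.X v - 1) z) := by
    rw [← T_mul, ← T_mul, mul_comm]
  rw [e]
  exact h _

variable (a) in
/-- the local oscillation, to the power `q` -/
noncomputable def Del (q : ℝ) (z : Z) : ℝ :=
  (∑ ε ∈ Fintype.piFinset (fun _ : Fin n => ({-1, 0, 1} : Finset ℤ)), cst a z ε ^ q) / 3 ^ n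

lemma Del_nonneg (q : ℝ) (z : Z) : 0 ≤ Del a q z :=
  div_nonneg (Finset.sum_nonneg fun _ _ => Real.rpow_nonneg (cst_nonneg _ _) _) (by positivity)

lemma Del_T {q : ℝ} (hq : 0 ≤ q) {ν : K} {C : ℝ} (hC : 0 ≤ C) (h : Bd a ν C) (z : Z) :
    Del a q (a.T ν z) ≤ C ^ q * Del a q z := by
  unfold Del
  rw [mul_div_assoc']
  apply div_le_div_of_nonneg_right _ (by positivity)
  rw [Finset.mul_sum]
  apply Finset.sum_le_sum
  intro ε _
  rw [← Real.mul_rpow hC (cst_nonneg _ _)]
  exact Real.rpow_le_rpow (cst_nonneg _ _) (cst_T h z ε) hq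

/-! ### the law of a random unit step -/

/-- sample space for one coordinate -/
abbrev W : Type := (ℤˣ × Bool) × Fin 6

def vv (w : ℤˣ × Bool) : ℤ := if w.2 then (w.1 : ℤ) else 0

def aa (w : W) : ℤ :=
  if w.1.2 then (if w.2 < 3 then (w.1.1 : ℤ) else 0) else (if w.2 < 5 then (w.1.1 : ℤ) else 0)

def bb (w : W) : ℤ :=
  if w.1.2 then (if w.2 < 3 then 0 else -(w.1.1 : ℤ)) else (if w.2 < 5 then (w.1.1 : ℤ) else 0)

lemma vv_eq (w : W) : vv w.1 = aa w - bb w := by
  revert w; decide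

lemma mem_aa (w : W) : aa w ∈ ({-1, 0, 1} : Finset ℤ) := by
  revert w; decide

lemma mem_bb (w : W) : bb w ∈ ({-1, 0, 1} : Finset ℤ) := by
  revert w; decide

lemma fib_aa (v : ℤ) (hv : v ∈ ({-1, 0, 1} : Finset ℤ)) :
    (univ.filter fun w : W => aa w = v).card = 8 := by
  fin_cases hv <;> decide

lemma fib_bb (v : ℤ) (hv : v ∈ ({-1, 0, 1} : Finset ℤ)) :
    (univ.filter fun w : W => bb w = v).card = 8 := by
  fin_cases hv <;> decide

/-- pushing forward the uniform law -/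
lemma push (g : Fin n → W → ℤ) (hg : ∀ j w, g j w ∈ ({-1, 0, 1} : Finset ℤ))
    (hf : ∀ j, ∀ v ∈ ({-1, 0, 1} : Finset ℤ), (univ.filter fun w : W => g j w = v).card = 8)
    (F : (Fin n → ℤ) → ℝ) :
    ∑ w : Fin n → W, F (fun j => g j (w j)) =
      8 ^ n * ∑ ε ∈ Fintype.piFinset (fun _ : Fin n => ({-1, 0, 1} : Finset ℤ)), F ε := by
  classical
  have h1 : ∀ w ∈ (univ : Finset (Fin n → W)), (fun j => g j (w j)) ∈
      Fintype.piFinset (fun _ : Fin n => ({-1, 0, 1} : Finset ℤ)) := by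
    intro w _
    rw [Fintype.mem_piFinset]
    intro j
    exact hg j (w j)
  rw [← Finset.sum_fiberwise_of_maps_to h1, Finset.mul_sum]
  apply Finset.sum_congr rfl
  intro ε hε
  have h2 : ∑ w ∈ univ.filter (fun w : Fin n → W => (fun j => g j (w j)) = ε),
      F (fun j => g j (w j)) =
      ∑ w ∈ univ.filter (fun w : Fin n → W => (fun j => g j (w j)) = ε), F ε := by
    apply Finset.sum_congr rfl
    intro w hw
    rw [(Finset.mem_filter.1 hw).2]
  rw [h2, Finset.sum_const, nsmul_eq_mul]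
  congr 1
  have h3 : univ.filter (fun w : Fin n → W => (fun j => g j (w j)) = ε) =
      Fintype.piFinset (fun j : Fin n => univ.filter fun w : W => g j w = ε j) := by
    ext w
    simp only [Finset.mem_filter, Finset.mem_univ, true_and, Fintype.mem_piFinset]
    constructor
    · intro h j; exact congrFun h j
    · intro h; funext j; exact h j
  rw [h3, Fintype.card_piFinset]
  have h4 : ∀ j ∈ (univ : Finset (Fin n)), (univ.filter fun w : W => g j w = ε j).card = 8 := by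
    intro j _
    exact hf j (ε j) (Fintype.mem_piFinset.1 hε j)
  rw [Finset.prod_congr rfl h4]
  simp

/-- the random step `σ β`, restricted to the coordinates in `A` -/
def stp (A : Finset (Fin n)) (σ : Fin n → ℤˣ) (β : Fin n → Bool) : Fin n → ℤ :=
  fun j => if j ∈ A then vv (σ j, β j) else 0

lemma law {q : ℝ} (hq : 1 ≤ q) (A : Finset (Fin n)) (z : Z) :
    (∑ σ : Fin n → ℤˣ, ∑ β : Fin n → Bool, cst a z (stp A σ β) ^ q) / 4 ^ n ≤
      2 ^ q * Del a q z := by
  classical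
  have hq0 : 0 ≤ q := by linarith
  set b' : Fin n → W → ℤ := fun j w => if j ∈ A then bb w else aa w with hb'
  have e1 : ∑ w : Fin n → W, cst a z (stp A (fun j => (w j).1.1) (fun j => (w j).1.2)) ^ q =
      6 ^ n * ∑ σ : Fin n → ℤˣ, ∑ β : Fin n → Bool, cst a z (stp A σ β) ^ q := by
    rw [← Equiv.sum_comp (Equiv.arrowProdEquivProdArrow (Fin n) (fun _ => ℤˣ × Bool) (fun _ => Fin 6)).symm,
      Fintype.sum_prod_type]
    rw [← Equiv.sum_comp (Equiv.arrowProdEquivProdArrow (Fin n) (fun _ => ℤˣ) (fun _ => Bool)).symm,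
      Fintype.sum_prod_type, Finset.mul_sum]
    apply Finset.sum_congr rfl
    intro σ _
    rw [Finset.mul_sum]
    apply Finset.sum_congr rfl
    intro β _
    have : ∀ r : Fin n → Fin 6, cst a z (stp A
        (fun j => ((Equiv.arrowProdEquivProdArrow (Fin n) (fun _ => ℤˣ × Bool) (fun _ => Fin 6)).symm
          ((Equiv.arrowProdEquivProdArrow (Fin n) (fun _ => ℤˣ) (fun _ => Bool)).symm (σ, β), r) j).1.1)
        (fun j => ((Equiv.arrowProdEquivProdArrow (Fin n) (fun _ => ℤˣ × Bool) (fun _ => Fin 6)).symm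
          ((Equiv.arrowProdEquivProdArrow (Fin n) (fun _ => ℤˣ) (fun _ => Bool)).symm (σ, β), r) j).1.2)) ^ q
        = cst a z (stp A σ β) ^ q := fun r => rfl
    rw [Finset.sum_congr rfl fun r _ => this r, Finset.sum_const, Finset.card_univ,
      Fintype.card_fun, Fintype.card_fin, Fintype.card_fin, nsmul_eq_mul]
    push_cast
    ring
  have h1 : ∀ w : Fin n → W, cst a z (stp A (fun j => (w j).1.1) (fun j => (w j).1.2)) ^ q ≤
      2 ^ (q - 1) * (cst a z (fun j => aa (w j)) ^ q + cst a z (fun j => b' j (w j)) ^ q) := by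
    intro w
    refine le_trans ?_ (two_pow (cst_nonneg _ _) (cst_nonneg _ _) hq)
    apply Real.rpow_le_rpow (cst_nonneg _ _) _ hq0
    have e : stp A (fun j => (w j).1.1) (fun j => (w j).1.2) =
        (fun j => aa (w j)) - (fun j => b' j (w j)) := by
      funext j
      simp only [stp, Pi.sub_apply, hb']
      by_cases hj : j ∈ A
      · simp only [hj, if_true]
        exact vv_eq (w j)
      · simp only [hj, if_false, sub_self]
    rw [e]
    exact cst_sub _ _ _
  have h2 := Finset.sum_le_sum fun (w : Fin n → W) (_ : w ∈ univ) => h1 w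
  rw [e1, ← Finset.mul_sum, Finset.sum_add_distrib] at h2
  have h3 := push (fun _ => aa) (fun _ w => mem_aa w) (fun _ => fib_aa) (fun ε : Fin n → ℤ => cst a z ε ^ q)
  have h4 := push b' (by
      intro j w
      simp only [hb']
      split
      · exact mem_bb w
      · exact mem_aa w) (by
      intro j v hv
      simp only [hb']
      by_cases hj : j ∈ A
      · simp only [hj, if_true]; exact fib_bb v hv
      · simp only [hj, if_false]; exact fib_aa v hv) (fun ε : Fin n → ℤ => cst a z ε ^ q)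
  rw [h3, h4] at h2
  unfold Del
  set E := ∑ ε ∈ Fintype.piFinset (fun _ : Fin n => ({-1, 0, 1} : Finset ℤ)), cst a z ε ^ q with hE
  set L := ∑ σ : Fin n → ℤˣ, ∑ β : Fin n → Bool, cst a z (stp A σ β) ^ q with hL
  have h24 : (6 : ℝ) ^ n * 4 ^ n = 8 ^ n * 3 ^ n := by rw [← mul_pow, ← mul_pow]; norm_num
  have h2q : (2 : ℝ) ^ q = 2 ^ (q - 1) * 2 := by
    rw [← Real.rpow_add_one (by norm_num)]; congr 1; ring
  rw [div_le_iff₀ (by positivity), h2q]
  have h6 : (0 : ℝ) < 6 ^ n := by positivity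
  have h3n : (0 : ℝ) < 3 ^ n := by positivity
  have h8 : (0 : ℝ) < 8 ^ n := by positivity
  have key : 6 ^ n * L ≤ 6 ^ n * (2 ^ (q - 1) * 2 * (E / 3 ^ n) * 4 ^ n) := by
    calc 6 ^ n * L ≤ 2 ^ (q - 1) * (8 ^ n * E + 8 ^ n * E) := h2
      _ = 2 ^ (q - 1) * 2 * (E / 3 ^ n) * (8 ^ n * 3 ^ n) := by field_simp; norm_num
      _ = 2 ^ (q - 1) * 2 * (E / 3 ^ n) * (6 ^ n * 4 ^ n) := by rw [h24]
      _ = _ := by ring
  exact le_of_mul_le_mul_left key h6

end Pool.Agent.H16.GC
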