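import Mathlib
import Pool.Agent.H16.GC.Act

set_option autoImplicit false
set_option linter.unusedSectionVars false

namespace Pool.Agent.H16.GC
open Finset

universe u

variable {n : ℕ} {K : Type} [CommRing K] [Algebra ℝ K] {Z : Type u} [NormedAddCommGroup Z]
    [NormedSpace ℝ Z] (a : Act n K Z)

/-- the generator in direction `j` -/
def xj (j : Fin n) : K := a.X (Pi.single j 1)

/-- geometric sums -/
def gs (j : Fin n) (k : ℕ) : K := ∑ l ∈ range k, xj a j ^ l

noncomputable def uk (j : Fin n) (k : ℕ) : K := (1 / (k : ℝ)) • gs a j k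

noncomputable def pk (k : ℕ) (j : Fin n) : K := (1 / 2 : ℝ) • (uk a j k * (1 + xj a j ^ k))

noncomputable def pt (k : ℕ) (j : Fin n) : K := uk a j k * uk a j k

noncomputable def rk (k : ℕ) (j : Fin n) : K := (xj a j - 1) * pt a k j

/-- signed first-order kernel -/
noncomputable def sk (k : ℕ) (σ : Fin n → ℤˣ) (j : Fin n) : K := ((σ j : ℤ) : ℝ) • rk a k j

variable {a}

lemma X_nsmul (v : Fin n → ℤ) (l : ℕ) : a.X (l • v) = a.X v ^ l := by
  induction l with
  | zero => rw [zero_nsmul, pow_zero, a.X_zero]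
  | succ l ih => rw [succ_nsmul, a.X_add, ih, pow_succ]

lemma xj_pow (j : Fin n) (l : ℕ) : xj a j ^ l = a.X (l • Pi.single j 1) := by
  rw [X_nsmul]; rfl

lemma Bd_xj_pow (j : Fin n) (l : ℕ) : Bd a (xj a j ^ l) 1 := by
  rw [xj_pow]; exact Bd.X _

lemma Bd_gs (j : Fin n) (k : ℕ) : Bd a (gs a j k) k := by
  have := Bd.sum (a := a) (range k) (ν := fun l => xj a j ^ l) (C := fun _ => 1)
    (fun l _ => Bd_xj_pow j l)
  simpa [gs] using this

lemma Bd_uk (j : Fin n) {k : ℕ} (hk : 0 < k) : Bd a (uk a j k) 1 := by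
  have hk0 : (0 : ℝ) < k := by exact_mod_cast hk
  refine ((Bd_gs j k).smul (1 / (k : ℝ))).mono (le_of_eq ?_)
  rw [abs_of_nonneg (by positivity)]
  field_simp

lemma Bd_pk (j : Fin n) {k : ℕ} (hk : 0 < k) : Bd a (pk a k j) 1 := by
  refine (((Bd_uk j hk).mul (Bd.one.add (Bd_xj_pow j k)) zero_le_one).smul (1 / 2 : ℝ)).mono ?_
  norm_num

lemma Bd_pt (j : Fin n) {k : ℕ} (hk : 0 < k) : Bd a (pt a k j) 1 := by
  refine ((Bd_uk j hk).mul (Bd_uk j hk) zero_le_one).mono ?_
  norm_num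

lemma gs_two (j : Fin n) (k : ℕ) : gs a j (2 * k) = gs a j k * (1 + xj a j ^ k) := by
  unfold gs
  rw [two_mul, Finset.sum_range_add, mul_add, mul_one, Finset.sum_mul]
  congr 1
  apply Finset.sum_congr rfl
  intro l _
  rw [pow_add, mul_comm]

lemma gs_shift_Bd (j : Fin n) {k i : ℕ} (hi : i ≤ k) :
    Bd a (gs a j (2 * k) - xj a j ^ i * gs a j k) k := by
  have e1 : xj a j ^ i * gs a j k = ∑ l ∈ Finset.Ico i (i + k), xj a j ^ l := by
    rw [Finset.sum_Ico_eq_sum_range, gs, Finset.mul_sum, Nat.add_sub_cancel_left]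
    exact Finset.sum_congr rfl fun l _ => by rw [pow_add]
  have hsub : Finset.Ico i (i + k) ⊆ range (2 * k) := by
    intro l hl
    rw [Finset.mem_Ico] at hl
    rw [Finset.mem_range]
    omega
  have e2 : gs a j (2 * k) - xj a j ^ i * gs a j k =
      ∑ l ∈ range (2 * k) \ Finset.Ico i (i + k), xj a j ^ l := by
    rw [e1, gs, ← Finset.sum_sdiff hsub]
    ring
  rw [e2]
  have h := Bd.sum (a := a) (range (2 * k) \ Finset.Ico i (i + k)) (ν := fun l => xj a j ^ l)
    (C := fun _ => 1) (fun l _ => Bd_xj_pow j l)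
  refine h.mono (le_of_eq ?_)
  rw [Finset.sum_const, Finset.card_sdiff_of_subset hsub, Finset.card_range, Nat.card_Ico]
  have : 2 * k - (i + k - i) = k := by omega
  rw [this]
  simp

/-- the kernel that does not move -/
lemma Bd_al (j : Fin n) {k : ℕ} (hk : 0 < k) {e : ℕ} (he : e ≤ 1) :
    Bd a (pk a k j - (1 / 2 : ℝ) • (xj a j ^ e * pt a k j)) (1 / 2) := by
  have hk0 : (0 : ℝ) < k := by exact_mod_cast hk
  have h1 : Bd a (∑ i ∈ range k, (gs a j (2 * k) - xj a j ^ (i + e) * gs a j k)) (k * k) := by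
    have := Bd.sum (a := a) (range k)
      (ν := fun i => gs a j (2 * k) - xj a j ^ (i + e) * gs a j k) (C := fun _ => (k : ℝ))
      (fun i hi => gs_shift_Bd j (by rw [Finset.mem_range] at hi; omega))
    simpa using this
  have e1 : ∑ i ∈ range k, (gs a j (2 * k) - xj a j ^ (i + e) * gs a j k) =
      (k : ℝ) • gs a j (2 * k) - xj a j ^ e * (gs a j k * gs a j k) := by
    rw [Finset.sum_sub_distrib, Finset.sum_const, Finset.card_range, ← Nat.cast_smul_eq_nsmul ℝ]
    congr 1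
    have : ∀ i ∈ range k, xj a j ^ (i + e) * gs a j k = (xj a j ^ e * gs a j k) * xj a j ^ i := by
      intro i _
      rw [pow_add]; ring
    rw [Finset.sum_congr rfl this, ← Finset.mul_sum]
    unfold gs
    ring
  have e2 : pk a k j - (1 / 2 : ℝ) • (xj a j ^ e * pt a k j) = (1 / 2 * (1 / (k * k)) : ℝ) •
      (∑ i ∈ range k, (gs a j (2 * k) - xj a j ^ (i + e) * gs a j k)) := by
    rw [e1, gs_two, pk, pt, uk]
    simp only [smul_sub, smul_mul_assoc, mul_smul_comm, smul_smul]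
    congr 1
    · congr 1
      field_simp
    · congr 1
      field_simp
  rw [e2]
  refine (h1.smul _).mono (le_of_eq ?_)
  rw [abs_of_nonneg (by positivity)]
  field_simp

/-- the mover, for the sign `s` -/
noncomputable def be (a : Act n K Z) (k : ℕ) (j : Fin n) (s : ℤˣ) : K :=
  (1 / 2 : ℝ) • (xj a j ^ (if s = 1 then 0 else 1) * pt a k j)

noncomputable def al (a : Act n K Z) (k : ℕ) (j : Fin n) (s : ℤˣ) : K := pk a k j - be a k j s

lemma al_add_be (k : ℕ) (j : Fin n) (s : ℤˣ) : al a k j s + be a k j s = pk a k j := by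
  unfold al; ring

lemma Bd_be (j : Fin n) {k : ℕ} (hk : 0 < k) (s : ℤˣ) : Bd a (be a k j s) (1 / 2) := by
  refine (((Bd_xj_pow j _).mul (Bd_pt j hk) zero_le_one).smul (1 / 2 : ℝ)).mono ?_
  rw [abs_of_nonneg (by norm_num)]
  norm_num

lemma Bd_al' (j : Fin n) {k : ℕ} (hk : 0 < k) (s : ℤˣ) : Bd a (al a k j s) (1 / 2) := by
  unfold al be
  apply Bd_al j hk
  split <;> omega

lemma al_be (k : ℕ) (j : Fin n) (s : ℤˣ) :
    al a k j s + be a k j s * a.X (Pi.single j (s : ℤ)) =
      pk a k j + (1 / 2 : ℝ) • (((s : ℤ) : ℝ) • rk a k j) := by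
  rcases Int.units_eq_one_or s with h | h
  · subst h
    simp only [al, be, if_true, pow_zero, one_mul, Units.val_one, Int.cast_one, one_smul, rk]
    have : a.X (Pi.single j 1) = xj a j := rfl
    rw [this]
    simp only [smul_mul_assoc, sub_mul, smul_sub, one_mul]
    ring_nf
  · subst h
    have hne : ¬ ((-1 : ℤˣ) = 1) := by decide
    have h1 : a.X (Pi.single j ((-1 : ℤˣ) : ℤ)) * xj a j = 1 := by
      unfold xj
      rw [← a.X_add, ← a.X_zero]
      congr 1
      rw [← Pi.single_add]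
      simp
    simp only [al, be, hne, if_false, pow_one, rk]
    have h2 : (1 / 2 : ℝ) • (xj a j * pt a k j) * a.X (Pi.single j ((-1 : ℤˣ) : ℤ)) =
        (1 / 2 : ℝ) • pt a k j := by
      rw [smul_mul_assoc]
      congr 1
      calc xj a j * pt a k j * a.X (Pi.single j ((-1 : ℤˣ) : ℤ)) =
          (a.X (Pi.single j ((-1 : ℤˣ) : ℤ)) * xj a j) * pt a k j := by ring
        _ = _ := by rw [h1, one_mul]
    rw [h2]
    simp only [Units.val_neg, Units.val_one, Int.cast_neg, Int.cast_one, neg_smul, one_smul,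
      smul_neg, sub_mul, smul_sub, one_mul]
    ring

lemma X_sum (s : Finset (Fin n)) (v : Fin n → (Fin n → ℤ)) :
    a.X (∑ j ∈ s, v j) = ∏ j ∈ s, a.X (v j) := by
  classical
  induction s using Finset.induction_on with
  | empty => rw [Finset.sum_empty, Finset.prod_empty, a.X_zero]
  | insert i s hi ih => rw [Finset.sum_insert hi, Finset.prod_insert hi, a.X_add, ih]

/-- products -/
noncomputable def PP (a : Act n K Z) (k : ℕ) (J : Finset (Fin n)) : K := ∏ j ∈ J, pk a k j

noncomputable def QQ (a : Act n K Z) (k : ℕ) (t : ℝ) (σ : Fin n → ℤˣ) (J : Finset (Fin n)) : K :=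
  ∏ j ∈ J, (pk a k j + t • sk a k σ j)

lemma Bd_PP {k : ℕ} (hk : 0 < k) (J : Finset (Fin n)) : Bd a (PP a k J) 1 := by
  have := Bd.prod (a := a) J (ν := fun j => pk a k j) (C := fun _ => 1) (fun j _ => Bd_pk j hk)
    (fun _ _ => zero_le_one)
  simpa [PP] using this

/-- the half-step decomposition -/
lemma half_step {k : ℕ} (hk : 0 < k) (σ : Fin n → ℤˣ) (A : Finset (Fin n)) (z : Z) :
    ‖a.T (QQ a k (1 / 2) σ A - PP a k A) z‖ ≤
      (1 / 2) ^ n * ∑ β : Fin n → Bool, cst a z (stp A σ β) := by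
  classical
  set f : Fin n → Bool → K := fun j b =>
    if j ∈ A then (if b then be a k j (σ j) else al a k j (σ j)) else (1 / 2 : ℝ) • 1 with hf
  set g : Fin n → Bool → K := fun j b => a.X (Pi.single j (if j ∈ A then vv (σ j, b) else 0)) with hg
  have e1 : QQ a k (1 / 2) σ A = ∑ β : Fin n → Bool, ∏ j, (f j (β j) * g j (β j)) := by
    rw [← Fintype.piFinset_univ, ← Finset.prod_univ_sum (fun _ => univ) (fun j b => f j b * g j b)]
    rw [QQ, ← Finset.prod_subset (Finset.subset_univ A)]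
    · apply Finset.prod_congr rfl
      intro j hj
      simp only [Fintype.sum_bool, hf, hg, hj, if_true, Bool.false_eq_true, if_false, vv,
        Pi.single_zero, a.X_zero, mul_one]
      rw [sk, ← al_be, add_comm]
    · intro j _ hj
      simp only [Fintype.sum_bool, hf, hg, hj, if_false, Pi.single_zero, a.X_zero, mul_one]
      rw [← add_smul]
      norm_num
  have e2 : PP a k A = ∑ β : Fin n → Bool, ∏ j, f j (β j) := by
    rw [← Fintype.piFinset_univ, ← Finset.prod_univ_sum (fun _ => univ) (fun j b => f j b)]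
    rw [PP, ← Finset.prod_subset (Finset.subset_univ A)]
    · apply Finset.prod_congr rfl
      intro j hj
      simp only [Fintype.sum_bool, hf, hj, if_true, Bool.false_eq_true, if_false]
      rw [← al_add_be k j (σ j), add_comm]
    · intro j _ hj
      simp only [Fintype.sum_bool, hf, hj, if_false]
      rw [← add_smul]
      norm_num
  have e3 : ∀ β : Fin n → Bool, ∏ j, g j (β j) = a.X (stp A σ β) := by
    intro β
    simp only [hg]
    rw [← X_sum]
    congr 1
    rw [← Finset.univ_sum_single (stp A σ β)]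
    rfl
  have e4 : QQ a k (1 / 2) σ A - PP a k A =
      ∑ β : Fin n → Bool, (∏ j, f j (β j)) * (a.X (stp A σ β) - 1) := by
    rw [e1, e2, ← Finset.sum_sub_distrib]
    apply Finset.sum_congr rfl
    intro β _
    rw [Finset.prod_mul_distrib, e3]
    ring
  have hB : ∀ β : Fin n → Bool, Bd a (∏ j, f j (β j)) ((1 / 2) ^ n) := by
    intro β
    have h := Bd.prod (a := a) univ (ν := fun j => f j (β j)) (C := fun _ => 1 / 2) (by
      intro j _
      simp only [hf]
      split
      · split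
        · exact Bd_be j hk _
        · exact Bd_al' j hk _
      · refine (Bd.one.smul (1 / 2 : ℝ)).mono ?_
        rw [abs_of_nonneg (by norm_num), mul_one]) (fun _ _ => by norm_num)
    simpa using h
  rw [e4, T_sum, Finset.mul_sum]
  refine (norm_sum_le _ _).trans (Finset.sum_le_sum fun β _ => ?_)
  rw [T_mul]
  exact hB β _

lemma prob_sum (J : Finset (Fin n)) {τ : ℝ} :
    ∑ A ∈ J.powerset, τ ^ A.card * (1 - τ) ^ (J \ A).card = 1 := by
  have h := Finset.prod_add (fun _ : Fin n => τ) (fun _ => 1 - τ) J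
  simp only [Finset.prod_const] at h
  rw [← h]
  simp

/-- general step -/
lemma gen_step {k : ℕ} (hk : 0 < k) {τ : ℝ} (h0 : 0 ≤ τ) (h1 : τ ≤ 1) (σ : Fin n → ℤˣ)
    (J : Finset (Fin n)) (z : Z) :
    ‖a.T (QQ a k (τ / 2) σ J - PP a k J) z‖ ≤
      ∑ A ∈ J.powerset, ∑ β : Fin n → Bool,
        (τ ^ A.card * (1 - τ) ^ (J \ A).card * (1 / 2) ^ n) * cst a z (stp A σ β) := by
  classical
  have e1 : QQ a k (τ / 2) σ J = ∑ A ∈ J.powerset, (τ ^ A.card * (1 - τ) ^ (J \ A).card) •
      (QQ a k (1 / 2) σ A * PP a k (J \ A)) := by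
    have h := Finset.prod_add (fun j : Fin n => τ • (pk a k j + (1 / 2 : ℝ) • sk a k σ j))
      (fun j => (1 - τ) • pk a k j) J
    have e : QQ a k (τ / 2) σ J = ∏ i ∈ J, (τ • (pk a k i + (1 / 2 : ℝ) • sk a k σ i) +
        (1 - τ) • pk a k i) := by
      unfold QQ
      apply Finset.prod_congr rfl
      intro j _
      rw [smul_add, smul_smul, sub_smul, one_smul]
      have : τ * (1 / 2) = τ / 2 := by ring
      rw [this]
      abel
    rw [e, h]
    apply Finset.sum_congr rfl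
    intro A _
    rw [Finset.prod_smul, Finset.prod_smul, Finset.prod_const, Finset.prod_const, smul_mul_smul_comm]
    rfl
  have e2 : PP a k J = ∑ A ∈ J.powerset, (τ ^ A.card * (1 - τ) ^ (J \ A).card) •
      (PP a k A * PP a k (J \ A)) := by
    have : ∀ A ∈ J.powerset, (τ ^ A.card * (1 - τ) ^ (J \ A).card) •
      (PP a k A * PP a k (J \ A)) = (τ ^ A.card * (1 - τ) ^ (J \ A).card) • PP a k J := by
      intro A hA
      congr 1
      unfold PP
      rw [mul_comm, Finset.prod_sdiff (Finset.mem_powerset.mp hA)]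
    rw [Finset.sum_congr rfl this, ← Finset.sum_smul, prob_sum, one_smul]
  have e3 : QQ a k (τ / 2) σ J - PP a k J = ∑ A ∈ J.powerset, (τ ^ A.card * (1 - τ) ^ (J \ A).card) •
      (PP a k (J \ A) * (QQ a k (1 / 2) σ A - PP a k A)) := by
    rw [e1, e2, ← Finset.sum_sub_distrib]
    apply Finset.sum_congr rfl
    intro A _
    rw [← smul_sub]
    congr 1
    ring
  rw [e3, T_sum]
  refine (norm_sum_le _ _).trans (Finset.sum_le_sum fun A _ => ?_)
  have hw : 0 ≤ τ ^ A.card * (1 - τ) ^ (J \ A).card :=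
    mul_nonneg (pow_nonneg h0 _) (pow_nonneg (by linarith) _)
  rw [T_smul, norm_smul, Real.norm_of_nonneg hw, T_mul, ← Finset.mul_sum]
  have h2 := Bd_PP (a := a) hk (J \ A) (a.T (QQ a k (1 / 2) σ A - PP a k A) z)
  rw [one_mul] at h2
  have h3 := half_step (a := a) hk σ A z
  calc τ ^ A.card * (1 - τ) ^ (J \ A).card *
      ‖a.T (PP a k (J \ A)) (a.T (QQ a k (1 / 2) σ A - PP a k A) z)‖
      ≤ τ ^ A.card * (1 - τ) ^ (J \ A).card * ((1 / 2) ^ n * ∑ β : Fin n → Bool, cst a z (stp A σ β)) :=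
        mul_le_mul_of_nonneg_left (h2.trans h3) hw
    _ = τ ^ A.card * (1 - τ) ^ (J \ A).card * (1 / 2) ^ n *
        ∑ β : Fin n → Bool, cst a z (stp A σ β) := by ring

/-- averaged over the signs -/
theorem step_avg {k : ℕ} (hk : 0 < k) {τ : ℝ} (h0 : 0 ≤ τ) (h1 : τ ≤ 1) {q : ℝ} (hq : 1 ≤ q)
    (J : Finset (Fin n)) (z : Z) :
    (∑ σ : Fin n → ℤˣ, ‖a.T (QQ a k (τ / 2) σ J - PP a k J) z‖ ^ q) / 2 ^ n ≤
      2 ^ q * Del a q z := by
  classical
  have hq0 : 0 ≤ q := by linarith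
  have hw : ∀ A ∈ J.powerset, 0 ≤ τ ^ A.card * (1 - τ) ^ (J \ A).card := fun A _ =>
    mul_nonneg (pow_nonneg h0 _) (pow_nonneg (by linarith) _)
  have h2 : ∀ σ : Fin n → ℤˣ, ‖a.T (QQ a k (τ / 2) σ J - PP a k J) z‖ ^ q ≤
      ∑ A ∈ J.powerset, ∑ β : Fin n → Bool,
        (τ ^ A.card * (1 - τ) ^ (J \ A).card * (1 / 2) ^ n) * cst a z (stp A σ β) ^ q := by
    intro σ
    refine (Real.rpow_le_rpow (norm_nonneg _) (gen_step hk h0 h1 σ J z) hq0).trans ?_
    rw [← Finset.sum_product', ← Finset.sum_product']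
    apply Real.rpow_arith_mean_le_arith_mean_rpow _ _ _ _ _ _ hq
    · intro x hx
      rw [Finset.mem_product] at hx
      exact mul_nonneg (hw _ hx.1) (by positivity)
    · rw [Finset.sum_product]
      simp only [Finset.sum_const, Finset.card_univ, Fintype.card_fun, Fintype.card_bool,
        Fintype.card_fin, nsmul_eq_mul]
      rw [← Finset.mul_sum, ← Finset.sum_mul, prob_sum]
      push_cast
      rw [one_mul, ← mul_pow]
      norm_num
    · intro x _
      exact cst_nonneg _ _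
  have h3 := Finset.sum_le_sum fun (σ : Fin n → ℤˣ) (_ : σ ∈ univ) => h2 σ
  rw [Finset.sum_comm] at h3
  rw [div_le_iff₀ (by positivity)]
  refine h3.trans ?_
  have h4 : ∀ A ∈ J.powerset, ∑ σ : Fin n → ℤˣ, ∑ β : Fin n → Bool,
      (τ ^ A.card * (1 - τ) ^ (J \ A).card * (1 / 2) ^ n) * cst a z (stp A σ β) ^ q ≤
      (τ ^ A.card * (1 - τ) ^ (J \ A).card) * (2 ^ q * Del a q z * 2 ^ n) := by
    intro A hA
    have h5 := law (a := a) hq A z
    rw [div_le_iff₀ (by positivity)] at h5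
    have e5 : ∑ σ : Fin n → ℤˣ, ∑ β : Fin n → Bool,
      (τ ^ A.card * (1 - τ) ^ (J \ A).card * (1 / 2) ^ n) * cst a z (stp A σ β) ^ q =
      (τ ^ A.card * (1 - τ) ^ (J \ A).card) * ((1 / 2) ^ n *
        ∑ σ : Fin n → ℤˣ, ∑ β : Fin n → Bool, cst a z (stp A σ β) ^ q) := by
      simp only [← Finset.mul_sum]
      ring
    rw [e5]
    apply mul_le_mul_of_nonneg_left _ (hw A hA)
    calc (1 / 2 : ℝ) ^ n * ∑ σ : Fin n → ℤˣ, ∑ β : Fin n → Bool, cst a z (stp A σ β) ^ q
        ≤ (1 / 2) ^ n * (2 ^ q * Del a q z * 4 ^ n) :=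
          mul_le_mul_of_nonneg_left h5 (by positivity)
      _ = 2 ^ q * Del a q z * ((1 / 2) ^ n * 4 ^ n) := by ring
      _ = 2 ^ q * Del a q z * 2 ^ n := by rw [← mul_pow]; norm_num
  refine (Finset.sum_le_sum h4).trans (le_of_eq ?_)
  rw [← Finset.sum_mul, prob_sum, one_mul]

end Pool.Agent.H16.GC
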