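import Mathlib
import Pool.Agent.H16.GC.Kern

set_option autoImplicit false
set_option linter.unusedSectionVars false

namespace Pool.Agent.H16.GC
open Finset

universe u

/-- reorganisation of a triple sum over nested subsets -/
lemma nested {n : ℕ} {M : Type*} [AddCommMonoid M] (J : Finset (Fin n))
    (F : Finset (Fin n) → ℕ → M) :
    ∑ I ∈ J.powerset, ∑ j ∈ J \ I, ∑ B ∈ I.powerset, F (insert j B) B.card =
      ∑ A ∈ J.powerset, (A.card * 2 ^ (J.card - A.card)) • F A (A.card - 1) := by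
  classical
  have e1 : ∀ A ∈ J.powerset, (A.card * 2 ^ (J.card - A.card)) • F A (A.card - 1) =
      ∑ _j ∈ A, ∑ _I ∈ (J \ A).powerset, F A (A.card - 1) := by
    intro A hA
    rw [Finset.sum_const, Finset.sum_const, Finset.card_powerset,
      Finset.card_sdiff_of_subset (Finset.mem_powerset.mp hA), smul_smul]
  rw [Finset.sum_congr rfl e1]
  simp_rw [← Finset.sum_product']
  rw [Finset.sum_sigma', Finset.sum_sigma']
  refine Finset.sum_nbij' (fun x => ⟨insert x.2.1 x.2.2, (x.2.1, x.1 \ x.2.2)⟩)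
    (fun x => ⟨x.2.2 ∪ x.1.erase x.2.1, (x.2.1, x.1.erase x.2.1)⟩) ?_ ?_ ?_ ?_ ?_
  · rintro ⟨I, j, B⟩ h
    simp only [Finset.mem_sigma, Finset.mem_powerset, Finset.mem_product, Finset.mem_sdiff] at h ⊢
    obtain ⟨hI, ⟨hj, hjI⟩, hB⟩ := h
    refine ⟨Finset.insert_subset hj (hB.trans hI), Finset.mem_insert_self _ _, ?_⟩
    intro x hx
    rw [Finset.mem_sdiff] at hx ⊢
    refine ⟨hI hx.1, ?_⟩
    rw [Finset.mem_insert]
    rintro (rfl | h')
    · exact hjI hx.1
    · exact hx.2 h'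
  · rintro ⟨A, j, I'⟩ h
    simp only [Finset.mem_sigma, Finset.mem_powerset, Finset.mem_product, Finset.mem_sdiff] at h ⊢
    obtain ⟨hA, hj, hI'⟩ := h
    refine ⟨Finset.union_subset (hI'.trans Finset.sdiff_subset)
      ((Finset.erase_subset _ _).trans hA), ⟨hA hj, ?_⟩, Finset.subset_union_right⟩
    rw [Finset.mem_union]
    rintro (h' | h')
    · exact (Finset.mem_sdiff.mp (hI' h')).2 hj
    · exact Finset.notMem_erase _ _ h'
  · rintro ⟨I, j, B⟩ h
    simp only [Finset.mem_sigma, Finset.mem_powerset, Finset.mem_product, Finset.mem_sdiff] at h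
    obtain ⟨hI, ⟨hj, hjI⟩, hB⟩ := h
    have hjB : j ∉ B := fun h' => hjI (hB h')
    simp only [Finset.erase_insert hjB, Finset.sdiff_union_of_subset hB]
  · rintro ⟨A, j, I'⟩ h
    simp only [Finset.mem_sigma, Finset.mem_powerset, Finset.mem_product] at h
    obtain ⟨hA, hj, hI'⟩ := h
    have hdis : Disjoint I' (A.erase j) := by
      rw [Finset.disjoint_left]
      intro x hx hx'
      exact (Finset.mem_sdiff.mp (hI' hx)).2 (Finset.mem_of_mem_erase hx')
    simp only [Finset.insert_erase hj, Finset.union_sdiff_cancel_right hdis]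
  · rintro ⟨I, j, B⟩ h
    simp only [Finset.mem_sigma, Finset.mem_powerset, Finset.mem_product, Finset.mem_sdiff] at h
    obtain ⟨hI, ⟨hj, hjI⟩, hB⟩ := h
    have hjB : j ∉ B := fun h' => hjI (hB h')
    simp only [Finset.card_insert_of_notMem hjB, Nat.add_sub_cancel]

variable {n : ℕ} {K : Type} [CommRing K] [Algebra ℝ K] {Z : Type u} [NormedAddCommGroup Z]
    [NormedSpace ℝ Z] (a : Act n K Z)

/-- first-order kernel -/
noncomputable def ph (k : ℕ) (σ : Fin n → ℤˣ) (J : Finset (Fin n)) : K :=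
  ∑ j ∈ J, sk a k σ j * PP a k (J.erase j)

/-- chaos kernel -/
noncomputable def ch (k : ℕ) (σ : Fin n → ℤˣ) (J A : Finset (Fin n)) : K :=
  (∏ j ∈ A, sk a k σ j) * PP a k (J \ A)

noncomputable def gl (t : ℝ) (l : ℕ) : ℝ := if l = 0 then 0 else 2 ^ (l + 1) * t ^ l / (l + 1)

noncomputable def GG (k : ℕ) (t : ℝ) (σ : Fin n → ℤˣ) (I : Finset (Fin n)) : K :=
  ∑ B ∈ I.powerset, gl t B.card • ch a k σ I B

variable {a}

lemma PP_sdiff {k : ℕ} {J A : Finset (Fin n)} (h : A ⊆ J) :
    PP a k (J \ A) * PP a k A = PP a k J := Finset.prod_sdiff h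

lemma QQ_expand (k : ℕ) (t : ℝ) (σ : Fin n → ℤˣ) (J : Finset (Fin n)) :
    QQ a k t σ J = ∑ A ∈ J.powerset, t ^ A.card • ch a k σ J A := by
  classical
  have h := Finset.prod_add (fun j : Fin n => t • sk a k σ j) (fun j => pk a k j) J
  have e : QQ a k t σ J = ∏ i ∈ J, (t • sk a k σ i + pk a k i) := by
    unfold QQ
    exact Finset.prod_congr rfl fun j _ => add_comm _ _
  rw [e, h]
  apply Finset.sum_congr rfl
  intro A _
  rw [Finset.prod_smul, Finset.prod_const, smul_mul_assoc]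
  rfl

lemma ph_ch (k : ℕ) (σ : Fin n → ℤˣ) (J : Finset (Fin n)) :
    ph a k σ J = ∑ j ∈ J, ch a k σ J {j} := by
  unfold ph ch
  apply Finset.sum_congr rfl
  intro j _
  rw [Finset.prod_singleton, Finset.sdiff_singleton_eq_erase]

lemma ph_GG (k : ℕ) (t : ℝ) (σ : Fin n → ℤˣ) (J : Finset (Fin n)) :
    ∑ I ∈ J.powerset, ph a k σ (J \ I) * GG a k t σ I =
      ∑ A ∈ J.powerset, (A.card * 2 ^ (J.card - A.card)) • (gl t (A.card - 1) • ch a k σ J A) := by
  classical
  rw [← nested J (fun A l => gl t l • ch a k σ J A)]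
  apply Finset.sum_congr rfl
  intro I hI
  rw [Finset.mem_powerset] at hI
  unfold ph GG
  rw [Finset.sum_mul]
  apply Finset.sum_congr rfl
  intro j hj
  rw [Finset.mul_sum]
  apply Finset.sum_congr rfl
  intro B hB
  rw [Finset.mem_powerset] at hB
  rw [Finset.mem_sdiff] at hj
  have hjB : j ∉ B := fun h => hj.2 (hB h)
  rw [mul_smul_comm]
  congr 1
  unfold ch
  rw [Finset.prod_insert hjB]
  have e : PP a k ((J \ I).erase j) * PP a k (I \ B) = PP a k (J \ insert j B) := by
    unfold PP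
    rw [← Finset.prod_union]
    · congr 1
      ext x
      simp only [Finset.mem_union, Finset.mem_erase, Finset.mem_sdiff, Finset.mem_insert]
      constructor
      · rintro (⟨h1, h2, h3⟩ | ⟨h1, h2⟩)
        · exact ⟨h2, fun h => h.elim h1 (fun h' => h3 (hB h'))⟩
        · exact ⟨hI h1, fun h => h.elim (fun h' => hj.2 (h' ▸ h1)) h2⟩
      · rintro ⟨h1, h2⟩
        by_cases hx : x ∈ I
        · exact Or.inr ⟨hx, fun h => h2 (Or.inr h)⟩
        · exact Or.inl ⟨fun h => h2 (Or.inl h), h1, hx⟩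
    · rw [Finset.disjoint_left]
      intro x hx hx'
      exact (Finset.mem_sdiff.mp (Finset.mem_of_mem_erase hx)).2 (Finset.mem_sdiff.mp hx').1
  rw [← e]
  ring

/-- the key identity -/
theorem key_id (k : ℕ) (t : ℝ) (σ : Fin n → ℤˣ) (J : Finset (Fin n)) :
    QQ a k t σ J = PP a k J + t • ph a k σ J +
      (t * (1 / 2) ^ J.card) • ∑ I ∈ J.powerset, ph a k σ (J \ I) * GG a k t σ I := by
  classical
  have h0 : PP a k J = ∑ A ∈ J.powerset, (if A.card = 0 then (1 : ℝ) else 0) • ch a k σ J A := by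
    rw [Finset.sum_eq_single ∅]
    · simp [ch]
    · intro A _ hA
      have : A.card ≠ 0 := fun h => hA (Finset.card_eq_zero.mp h)
      rw [if_neg this, zero_smul]
    · intro h; exact absurd (Finset.empty_mem_powerset J) h
  have h1 : ph a k σ J = ∑ A ∈ J.powerset, (if A.card = 1 then (1 : ℝ) else 0) • ch a k σ J A := by
    rw [ph_ch]
    have e1 : ∀ A ∈ J.powerset, (if A.card = 1 then (1 : ℝ) else 0) • ch a k σ J A =
        if A.card = 1 then ch a k σ J A else 0 := by
      intro A _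
      split <;> simp
    rw [Finset.sum_congr rfl e1, ← Finset.sum_filter, ← Finset.powersetCard_eq_filter,
      Finset.powersetCard_one, Finset.sum_map]
    rfl
  rw [QQ_expand, ph_GG]
  nth_rewrite 1 [h0]
  rw [h1, Finset.smul_sum, Finset.smul_sum, ← Finset.sum_add_distrib, ← Finset.sum_add_distrib]
  apply Finset.sum_congr rfl
  intro A hA
  rw [← Nat.cast_smul_eq_nsmul ℝ, smul_smul, smul_smul, smul_smul, ← add_smul, ← add_smul]
  congr 1
  have hcard : A.card ≤ J.card := Finset.card_le_card (Finset.mem_powerset.mp hA)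
  rcases Nat.lt_or_ge A.card 2 with h | h
  · interval_cases hc : A.card
    · simp [gl]
    · simp [gl]
  · have h2 : A.card ≠ 0 := by omega
    have h3 : A.card ≠ 1 := by omega
    have h4 : A.card - 1 ≠ 0 := by omega
    rw [if_neg h2, if_neg h3, gl, if_neg h4]
    obtain ⟨l, hl⟩ : ∃ l, A.card = l + 2 := ⟨A.card - 2, by omega⟩
    obtain ⟨r, hr⟩ : ∃ r, J.card = A.card + r := ⟨J.card - A.card, by omega⟩
    have e3 : J.card - A.card = r := by omega
    have e4 : A.card - 1 = l + 1 := by omega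
    rw [e3, e4, hr, hl]
    push_cast
    have hl0 : ((l : ℝ) + 1 + 1) ≠ 0 := by positivity
    rw [pow_add (1 / 2 : ℝ) (l + 2) r]
    have e5 : ((1 : ℝ) / 2) ^ (l + 2) = 1 / 2 ^ (l + 2) := by rw [one_div_pow]
    have e6 : ((1 : ℝ) / 2) ^ r = 1 / 2 ^ r := by rw [one_div_pow]
    rw [e5, e6]
    have e7 : ((l : ℝ) + 2) = (l : ℝ) + 1 + 1 := by ring
    rw [e7]
    field_simp
    ring

end Pool.Agent.H16.GC
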