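import Mathlib
import Pool.Agent.H16.GC.Comb

set_option autoImplicit false
set_option linter.unusedSectionVars false

namespace Pool.Agent.H16.GC
open Finset

universe u

/-- sign attached to a bit -/
def ob (b : Bool) : ℝ := if b then 1 else -1

lemma ob_orth {n : ℕ} (B B' : Finset (Fin n)) :
    ∑ b : Fin n → Bool, (∏ j ∈ B, ob (b j)) * (∏ j ∈ B', ob (b j)) =
      if B = B' then 2 ^ n else 0 := by
  classical
  have e : ∀ b : Fin n → Bool, (∏ j ∈ B, ob (b j)) * (∏ j ∈ B', ob (b j)) =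
      ∏ j, ((if j ∈ B then ob (b j) else 1) * (if j ∈ B' then ob (b j) else 1)) := by
    intro b
    rw [Finset.prod_mul_distrib, Finset.prod_ite_mem, Finset.prod_ite_mem, Finset.univ_inter,
      Finset.univ_inter]
  simp only [e]
  rw [← Fintype.piFinset_univ, ← Finset.prod_univ_sum (fun _ => univ)
    (fun j b => (if j ∈ B then ob b else 1) * (if j ∈ B' then ob b else 1))]
  split
  · next h =>
    subst h
    have : ∀ j ∈ (univ : Finset (Fin n)), ∑ b : Bool,
        ((if j ∈ B then ob b else 1) * (if j ∈ B then ob b else 1)) = 2 := by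
      intro j _
      rw [Fintype.sum_bool]
      by_cases hj : j ∈ B
      · simp only [hj, if_true, ob, Bool.false_eq_true, if_false]; norm_num
      · simp only [hj, if_false]; norm_num
    rw [Finset.prod_congr rfl this]
    simp
  · next h =>
    obtain ⟨j, hj⟩ : ∃ j, ¬ (j ∈ B ↔ j ∈ B') := by
      by_contra hcon
      push Not at hcon
      exact h (Finset.ext hcon)
    apply Finset.prod_eq_zero (Finset.mem_univ j)
    rw [Fintype.sum_bool]
    by_cases h1 : j ∈ B
    · have h2 : j ∉ B' := fun h' => hj ⟨fun _ => h', fun _ => h1⟩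
      simp only [h1, h2, if_true, if_false, ob, Bool.false_eq_true]; norm_num
    · have h2 : j ∈ B' := by
        by_contra h'
        exact hj ⟨fun h => absurd h h1, fun h => absurd h h'⟩
      simp only [h1, h2, if_true, if_false, ob, Bool.false_eq_true]; norm_num

lemma gl_sq {t k : ℝ} (hk : 0 < k) (l : ℕ) :
    (gl t l) ^ 2 * (4 / k ^ 2) ^ l ≤ if l = 0 then 0 else (16 * t ^ 2 / k ^ 2) ^ l := by
  unfold gl
  split
  · simp
  · next h =>
    have hl : (1 : ℝ) ≤ l := by exact_mod_cast Nat.one_le_iff_ne_zero.mpr h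
    have e : (2 ^ (l + 1) * t ^ l / ((l : ℝ) + 1)) ^ 2 * (4 / k ^ 2) ^ l =
        (2 / ((l : ℝ) + 1)) ^ 2 * (16 * t ^ 2 / k ^ 2) ^ l := by
      have h16 : (16 : ℝ) ^ l = 4 ^ l * 4 ^ l := by rw [← mul_pow]; norm_num
      have h4 : (2 : ℝ) ^ (l + 1) * 2 ^ (l + 1) = 4 * 4 ^ l := by
        rw [← mul_pow, pow_succ]; norm_num [mul_comm]
      rw [div_pow, div_pow, div_pow, div_pow, mul_pow, mul_pow, h16]
      have h5 : ((2 : ℝ) ^ (l + 1)) ^ 2 = 4 * 4 ^ l := by rw [sq, h4]
      rw [h5, ← pow_mul, ← pow_mul, ← pow_mul, mul_comm l 2]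
      have hk2 : k ^ (2 * l) ≠ 0 := by positivity
      field_simp
      norm_num
      ring
    rw [e]
    have h1 : (2 / ((l : ℝ) + 1)) ^ 2 ≤ 1 := by
      rw [sq_le_one_iff₀ (by positivity), div_le_one (by positivity)]
      linarith
    have h2 : 0 ≤ (16 * t ^ 2 / k ^ 2) ^ l := by positivity
    nlinarith

lemma sum_pow_card {n : ℕ} (I : Finset (Fin n)) (x : ℝ) :
    ∑ B ∈ I.powerset, x ^ B.card = (1 + x) ^ I.card := by
  classical
  have h := Finset.prod_add (fun _ : Fin n => x) (fun _ => (1 : ℝ)) I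
  simp only [Finset.prod_const, one_pow, mul_one] at h
  rw [← h, add_comm]

lemma small_pow {n c : ℕ} (hc : c ≤ n) {x : ℝ} (hx : 0 ≤ x) (h : n * x ≤ 1 / 5) :
    (1 + x) ^ c - 1 ≤ 1 / 4 := by
  have h1 : (1 + x) ^ c ≤ (1 + x) ^ n := pow_le_pow_right₀ (by linarith) hc
  have h2 : (1 + x) ^ n ≤ Real.exp (n * x) := by
    have := Real.add_one_le_exp x
    calc (1 + x) ^ n ≤ (Real.exp x) ^ n := pow_le_pow_left₀ (by linarith) (by linarith) n
      _ = Real.exp (n * x) := by rw [← Real.exp_nat_mul]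
  have h3 : Real.exp (n * x) ≤ 5 / 4 := by
    have h4 := Real.add_one_le_exp (-(n * x))
    rw [Real.exp_neg] at h4
    have h5 : 4 / 5 ≤ (Real.exp (n * x))⁻¹ := by linarith
    have h6 := Real.exp_pos (n * x)
    rw [le_inv_comm₀ (by norm_num) h6] at h5
    linarith
  linarith

variable {n : ℕ} {K : Type} [CommRing K] [Algebra ℝ K] {Z : Type u} [NormedAddCommGroup Z]
    [NormedSpace ℝ Z] {a : Act n K Z}

lemma rk_eq (j : Fin n) (k : ℕ) :
    rk a k j = (1 / (k : ℝ)) • (uk a j k * (xj a j ^ k - 1)) := by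
  have h : (xj a j - 1) * gs a j k = xj a j ^ k - 1 := mul_geom_sum _ _
  unfold rk pt
  have e : (xj a j - 1) * (uk a j k * uk a j k) = uk a j k * ((xj a j - 1) * uk a j k) := by ring
  rw [e]
  nth_rewrite 2 [uk]
  rw [mul_smul_comm, h, mul_smul_comm]

/-- the base points of the expansion -/
noncomputable def bas (a : Act n K Z) (k : ℕ) (I : Finset (Fin n)) (b : Fin n → Bool) : K :=
  ∏ j, if j ∈ I then uk a j k * (if b j then xj a j ^ k else 1) else 1

lemma Bd_bas {k : ℕ} (hk : 0 < k) (I : Finset (Fin n)) (b : Fin n → Bool) :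
    Bd a (bas a k I b) 1 := by
  have h := Bd.prod (a := a) univ
    (ν := fun j => if j ∈ I then uk a j k * (if b j then xj a j ^ k else 1) else 1)
    (C := fun _ => 1) (by
      intro j _
      split
      · have h1 : Bd a (if b j = true then xj a j ^ k else 1) 1 := by
          split
          · exact Bd_xj_pow j k
          · exact Bd.one
        simpa using (Bd_uk j hk).mul h1 zero_le_one
      · exact Bd.one) (fun _ _ => zero_le_one)
  simpa [bas] using h

lemma ch_expand {k : ℕ} (σ : Fin n → ℤˣ) {I B : Finset (Fin n)} (hB : B ⊆ I) :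
    ch a k σ I B = ∑ b : Fin n → Bool,
      ((1 / 2) ^ n * ((∏ j ∈ B, (2 * ((σ j : ℤ) : ℝ) / k)) * ∏ j ∈ B, ob (b j))) •
        bas a k I b := by
  classical
  set co : Fin n → Bool → ℝ := fun j b => 1 / 2 * (if j ∈ B then 2 * ((σ j : ℤ) : ℝ) / k * ob b else 1)
    with hco
  set f : Fin n → Bool → K := fun j b =>
    co j b • (if j ∈ I then uk a j k * (if b then xj a j ^ k else 1) else 1) with hf
  have e1 : ch a k σ I B = ∑ b : Fin n → Bool, ∏ j, f j (b j) := by
    rw [← Fintype.piFinset_univ, ← Finset.prod_univ_sum (fun _ => univ) (fun j b => f j b)]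
    have e2 : ch a k σ I B = ∏ j, (if j ∈ I then (if j ∈ B then sk a k σ j else pk a k j) else 1) := by
      rw [Finset.prod_ite_mem, Finset.univ_inter, Finset.prod_ite, ch, PP]
      congr 1
      · apply Finset.prod_congr _ (fun _ _ => rfl)
        ext x
        simp only [Finset.mem_filter]
        exact ⟨fun h => ⟨hB h, h⟩, fun h => h.2⟩
      · apply Finset.prod_congr _ (fun _ _ => rfl)
        ext x
        simp only [Finset.mem_filter, Finset.mem_sdiff]
    rw [e2]
    apply Finset.prod_congr rfl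
    intro j _
    by_cases hj : j ∈ I
    · by_cases hj' : j ∈ B
      · simp only [Fintype.sum_bool, hf, hco, hj, hj', if_true, ob, Bool.false_eq_true, if_false,
          mul_one]
        rw [sk, rk_eq, mul_sub, mul_one, smul_sub, smul_sub, smul_smul, smul_smul, sub_eq_add_neg,
          ← neg_smul]
        congr 2 <;> ring
      · simp only [Fintype.sum_bool, hf, hco, hj, hj', if_true, Bool.false_eq_true, if_false,
          mul_one]
        rw [pk, mul_add, mul_one, smul_add, add_comm]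
    · have hj' : j ∉ B := fun h => hj (hB h)
      simp only [Fintype.sum_bool, hf, hco, hj, hj', if_false, mul_one]
      rw [← add_smul]
      norm_num
  rw [e1]
  apply Finset.sum_congr rfl
  intro b _
  simp only [hf]
  rw [Finset.prod_smul]
  congr 1
  simp only [hco]
  rw [Finset.prod_mul_distrib, Finset.prod_const, Finset.card_univ, Fintype.card_fin,
    Finset.prod_ite_mem, Finset.univ_inter, Finset.prod_mul_distrib]

lemma GG_Bd {k : ℕ} (hk : 0 < k) {t : ℝ} (h : 80 * t ^ 2 * n ≤ (k : ℝ) ^ 2)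
    (σ : Fin n → ℤˣ) (I : Finset (Fin n)) : Bd a (GG a k t σ I) (1 / 2) := by
  classical
  have hk0 : (0 : ℝ) < k := by exact_mod_cast hk
  set c : Finset (Fin n) → ℝ := fun B => gl t B.card * ∏ j ∈ B, (2 * ((σ j : ℤ) : ℝ) / k) with hc
  set Wf : (Fin n → Bool) → ℝ := fun b => ∑ B ∈ I.powerset, c B * ∏ j ∈ B, ob (b j) with hW
  have e1 : GG a k t σ I = ∑ b : Fin n → Bool, ((1 / 2) ^ n * Wf b) • bas a k I b := by
    unfold GG
    have e2 : ∀ B ∈ I.powerset, gl t B.card • ch a k σ I B = ∑ b : Fin n → Bool,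
        ((1 / 2) ^ n * (c B * ∏ j ∈ B, ob (b j))) • bas a k I b := by
      intro B hB
      rw [ch_expand σ (Finset.mem_powerset.mp hB), Finset.smul_sum]
      apply Finset.sum_congr rfl
      intro b _
      rw [smul_smul]
      congr 1
      simp only [hc]
      ring
    rw [Finset.sum_congr rfl e2, Finset.sum_comm]
    apply Finset.sum_congr rfl
    intro b _
    rw [← Finset.sum_smul, ← Finset.mul_sum]
  have h1 : Bd a (GG a k t σ I) (∑ b : Fin n → Bool, |(1 / 2) ^ n * Wf b| * 1) := by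
    rw [e1]
    exact Bd.sum _ fun b _ => (Bd_bas hk I b).smul _
  refine h1.mono ?_
  have e3 : ∑ b : Fin n → Bool, |(1 / 2) ^ n * Wf b| * 1 = (1 / 2) ^ n * ∑ b, |Wf b| := by
    rw [Finset.mul_sum]
    apply Finset.sum_congr rfl
    intro b _
    rw [abs_mul, abs_of_nonneg (by positivity : (0 : ℝ) ≤ (1 / 2) ^ n), mul_one]
  rw [e3]
  -- second moment
  have hsq : ∑ b, (Wf b) ^ 2 = 2 ^ n * ∑ B ∈ I.powerset, c B ^ 2 := by
    have e4 : ∀ b, (Wf b) ^ 2 = ∑ B ∈ I.powerset, ∑ B' ∈ I.powerset,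
        (c B * c B') * ((∏ j ∈ B, ob (b j)) * (∏ j ∈ B', ob (b j))) := by
      intro b
      simp only [hW]
      rw [sq, Finset.sum_mul_sum]
      apply Finset.sum_congr rfl
      intro B _
      apply Finset.sum_congr rfl
      intro B' _
      ring
    simp only [e4]
    rw [Finset.sum_comm, Finset.mul_sum]
    apply Finset.sum_congr rfl
    intro B hB
    rw [Finset.sum_comm]
    have e5 : ∀ B' ∈ I.powerset, ∑ b : Fin n → Bool,
        (c B * c B') * ((∏ j ∈ B, ob (b j)) * (∏ j ∈ B', ob (b j))) =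
        if B = B' then 2 ^ n * c B ^ 2 else 0 := by
      intro B' _
      rw [← Finset.mul_sum, ob_orth]
      split
      · next h => subst h; ring
      · simp
    rw [Finset.sum_congr rfl e5, Finset.sum_ite_eq, if_pos hB]
  have hcB : ∀ B ∈ I.powerset, c B ^ 2 ≤
      if B.card = 0 then 0 else (16 * t ^ 2 / (k : ℝ) ^ 2) ^ B.card := by
    intro B _
    have e6 : c B ^ 2 = (gl t B.card) ^ 2 * (4 / (k : ℝ) ^ 2) ^ B.card := by
      simp only [hc]
      rw [mul_pow, ← Finset.prod_pow]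
      congr 1
      have : ∀ j ∈ B, (2 * ((σ j : ℤ) : ℝ) / k) ^ 2 = 4 / (k : ℝ) ^ 2 := by
        intro j _
        have h2 : ((σ j : ℤ) : ℝ) ^ 2 = 1 := by
          rcases Int.units_eq_one_or (σ j) with h | h <;> simp [h]
        rw [div_pow, mul_pow, h2]; norm_num
      rw [Finset.prod_congr rfl this, Finset.prod_const]
    rw [e6]
    exact gl_sq hk0 _
  have hx : (0 : ℝ) ≤ 16 * t ^ 2 / (k : ℝ) ^ 2 := by positivity
  have hsum : ∑ B ∈ I.powerset, c B ^ 2 ≤ 1 / 4 := by
    have h2 : ∑ B ∈ I.powerset, (if B.card = 0 then (0 : ℝ) else (16 * t ^ 2 / (k : ℝ) ^ 2) ^ B.card)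
        = (1 + 16 * t ^ 2 / (k : ℝ) ^ 2) ^ I.card - 1 := by
      rw [← sum_pow_card]
      have e7 : ∀ B ∈ I.powerset, (if B.card = 0 then (0 : ℝ) else
          (16 * t ^ 2 / (k : ℝ) ^ 2) ^ B.card) = (16 * t ^ 2 / (k : ℝ) ^ 2) ^ B.card -
          (if B = ∅ then 1 else 0) := by
        intro B _
        by_cases hB : B = ∅
        · subst hB; simp
        · have : B.card ≠ 0 := fun h => hB (Finset.card_eq_zero.mp h)
          rw [if_neg this, if_neg hB, sub_zero]
      rw [Finset.sum_congr rfl e7, Finset.sum_sub_distrib, Finset.sum_ite_eq',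
        if_pos (Finset.empty_mem_powerset I)]
    refine (Finset.sum_le_sum hcB).trans ?_
    rw [h2]
    apply small_pow (n := n) _ hx
    · rw [mul_div_assoc', div_le_iff₀ (by positivity)]
      linarith
    · calc I.card ≤ (univ : Finset (Fin n)).card := Finset.card_le_card (Finset.subset_univ I)
        _ = n := by simp
  have hcs := sq_sum_le_card_mul_sum_sq (s := (univ : Finset (Fin n → Bool))) (f := fun b => |Wf b|)
  simp only [sq_abs] at hcs
  rw [hsq] at hcs
  have hcard : ((univ : Finset (Fin n → Bool)).card : ℝ) = 2 ^ n := by simp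
  rw [hcard] at hcs
  have h2n : (0 : ℝ) < 2 ^ n := by positivity
  have hS0 : 0 ≤ ∑ b, |Wf b| := Finset.sum_nonneg fun _ _ => abs_nonneg _
  have h5 : (∑ b, |Wf b|) ^ 2 ≤ (2 ^ n * (1 / 2)) ^ 2 := by
    calc (∑ b, |Wf b|) ^ 2 ≤ 2 ^ n * (2 ^ n * ∑ B ∈ I.powerset, c B ^ 2) := hcs
      _ ≤ 2 ^ n * (2 ^ n * (1 / 4)) := by
          apply mul_le_mul_of_nonneg_left _ h2n.le
          exact mul_le_mul_of_nonneg_left hsum h2n.le
      _ = _ := by ring
  have h7 : ∑ b, |Wf b| ≤ 2 ^ n * (1 / 2) := le_of_sq_le_sq h5 (by positivity)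
  calc (1 / 2 : ℝ) ^ n * ∑ b, |Wf b| ≤ (1 / 2) ^ n * (2 ^ n * (1 / 2)) :=
        mul_le_mul_of_nonneg_left h7 (by positivity)
    _ = 1 / 2 := by
        rw [← mul_assoc, ← mul_pow]; norm_num

end Pool.Agent.H16.GC
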