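import Mathlib
import Pool.Agent.H16.GC.GBd

set_option autoImplicit false
set_option linter.unusedSectionVars false

namespace Pool.Agent.H16.GC
open Finset
open Pool.Agent.H16.MC (two_pow)

universe u

/-- mixing two sign vectors -/
def mix {n : ℕ} (I : Finset (Fin n)) (σ τ : Fin n → ℤˣ) : Fin n → ℤˣ :=
  fun j => if j ∈ I then τ j else σ j

lemma indep {n : ℕ} (I : Finset (Fin n)) (F : (Fin n → ℤˣ) → (Fin n → ℤˣ) → ℝ)
    (h1 : ∀ σ τ, F σ τ = F (mix I σ τ) (mix I σ τ)) :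
    ∑ σ, ∑ τ, F σ τ = 2 ^ n * ∑ σ, F σ σ := by
  classical
  have hinv : Function.Involutive (fun p : (Fin n → ℤˣ) × (Fin n → ℤˣ) =>
      (mix I p.1 p.2, mix I p.2 p.1)) := by
    rintro ⟨σ, τ⟩
    ext j
    · simp only [mix]; split <;> rfl
    · simp only [mix]; split <;> rfl
  have e1 : ∑ σ, ∑ τ, F σ τ = ∑ p : (Fin n → ℤˣ) × (Fin n → ℤˣ), F (mix I p.1 p.2) (mix I p.1 p.2) := by
    rw [Fintype.sum_prod_type]
    exact Finset.sum_congr rfl fun σ _ => Finset.sum_congr rfl fun τ _ => h1 σ τ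
  have e2 : ∑ p : (Fin n → ℤˣ) × (Fin n → ℤˣ), F (mix I p.1 p.2) (mix I p.1 p.2) =
      ∑ p : (Fin n → ℤˣ) × (Fin n → ℤˣ), F p.1 p.1 :=
    Equiv.sum_comp (Function.Involutive.toPerm _ hinv)
      (fun p : (Fin n → ℤˣ) × (Fin n → ℤˣ) => F p.1 p.1)
  rw [e1, e2, Fintype.sum_prod_type]
  simp only [Finset.sum_const, Finset.card_univ, Fintype.card_fun, Fintype.card_fin,
    Fintype.card_units_int, nsmul_eq_mul]
  rw [← Finset.mul_sum]
  push_cast
  rfl

variable {n : ℕ} {K : Type} [CommRing K] [Algebra ℝ K] {Z : Type u} [NormedAddCommGroup Z]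
    [NormedSpace ℝ Z] {a : Act n K Z}

lemma sk_congr {k : ℕ} {σ τ : Fin n → ℤˣ} {j : Fin n} (h : σ j = τ j) :
    sk a k σ j = sk a k τ j := by unfold sk; rw [h]

lemma ph_congr {k : ℕ} {σ τ : Fin n → ℤˣ} {J : Finset (Fin n)} (h : ∀ j ∈ J, σ j = τ j) :
    ph a k σ J = ph a k τ J := by
  unfold ph
  exact Finset.sum_congr rfl fun j hj => by rw [sk_congr (h j hj)]

lemma GG_congr {k : ℕ} {t : ℝ} {σ τ : Fin n → ℤˣ} {I : Finset (Fin n)} (h : ∀ j ∈ I, σ j = τ j) :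
    GG a k t σ I = GG a k t τ I := by
  unfold GG ch
  refine Finset.sum_congr rfl fun B hB => ?_
  rw [Finset.prod_congr rfl fun j hj => sk_congr (h j (Finset.mem_powerset.mp hB hj))]

/-- the bound to be improved -/
def HH (a : Act n K Z) (k : ℕ) (q B : ℝ) : Prop :=
  ∀ (J : Finset (Fin n)) (z : Z), (∑ σ : Fin n → ℤˣ, ‖a.T (ph a k σ J) z‖ ^ q) / 2 ^ n ≤
    B * Del a q z

lemma prod_term {k : ℕ} {q B t : ℝ} (hk : 0 < k) (hq : 1 ≤ q) (hB : 0 ≤ B)
    (ht : 80 * t ^ 2 * n ≤ (k : ℝ) ^ 2) (H : HH a k q B) (J I : Finset (Fin n)) (z : Z) :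
    (∑ σ : Fin n → ℤˣ, ‖a.T (ph a k σ (J \ I)) (a.T (GG a k t σ I) z)‖ ^ q) / 2 ^ n ≤
      B * ((1 / 2) ^ q * Del a q z) := by
  classical
  have hq0 : 0 ≤ q := by linarith
  set F : (Fin n → ℤˣ) → (Fin n → ℤˣ) → ℝ := fun σ τ =>
    ‖a.T (ph a k σ (J \ I)) (a.T (GG a k t τ I) z)‖ ^ q with hF
  have h1 := indep I F (by
    intro σ τ
    simp only [hF]
    have e1 : ph a k σ (J \ I) = ph a k (mix I σ τ) (J \ I) := by
      apply ph_congr
      intro j hj
      simp only [mix, if_neg (Finset.mem_sdiff.mp hj).2]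
    have e2 : GG a k t τ I = GG a k t (mix I σ τ) I := by
      apply GG_congr
      intro j hj
      simp only [mix, if_pos hj]
    rw [← e1, ← e2])
  have h2 : ∑ σ, ∑ τ, F σ τ ≤ 2 ^ n * (2 ^ n * (B * ((1 / 2) ^ q * Del a q z))) := by
    rw [Finset.sum_comm]
    have h3 : ∀ τ ∈ (univ : Finset (Fin n → ℤˣ)), ∑ σ, F σ τ ≤
        2 ^ n * (B * ((1 / 2) ^ q * Del a q z)) := by
      intro τ _
      have h4 := H (J \ I) (a.T (GG a k t τ I) z)
      rw [div_le_iff₀ (by positivity)] at h4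
      have h5 := Del_T (a := a) hq0 (by norm_num : (0 : ℝ) ≤ 1 / 2) (GG_Bd hk ht τ I) z
      have h6 : B * Del a q (a.T (GG a k t τ I) z) ≤ B * ((1 / 2) ^ q * Del a q z) :=
        mul_le_mul_of_nonneg_left h5 hB
      calc ∑ σ, F σ τ ≤ B * Del a q (a.T (GG a k t τ I) z) * 2 ^ n := h4
        _ ≤ B * ((1 / 2) ^ q * Del a q z) * 2 ^ n := mul_le_mul_of_nonneg_right h6 (by positivity)
        _ = _ := by ring
    refine (Finset.sum_le_sum h3).trans (le_of_eq ?_)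
    simp
  rw [h1] at h2
  rw [div_le_iff₀ (by positivity)]
  have h7 := le_of_mul_le_mul_left h2 (by positivity : (0 : ℝ) < 2 ^ n)
  calc ∑ σ, F σ σ ≤ 2 ^ n * (B * ((1 / 2) ^ q * Del a q z)) := h7
    _ = _ := by ring

lemma improve {k : ℕ} {q B t : ℝ} (hk : 0 < k) (hq : 1 ≤ q) (hB : 0 ≤ B) (ht0 : 0 < t)
    (ht1 : t ≤ 1 / 2) (ht : 80 * t ^ 2 * n ≤ (k : ℝ) ^ 2) (H : HH a k q B) :
    HH a k q (1 / 2 * (4 / t) ^ q + 1 / 2 * B) := by
  classical
  intro J z
  have hq0 : 0 ≤ q := by linarith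
  have hpt : ∀ σ : Fin n → ℤˣ, t ^ q * ‖a.T (ph a k σ J) z‖ ^ q ≤ 2 ^ (q - 1) *
      (‖a.T (QQ a k t σ J - PP a k J) z‖ ^ q + t ^ q * ∑ I ∈ J.powerset, (1 / 2) ^ J.card *
        ‖a.T (ph a k σ (J \ I)) (a.T (GG a k t σ I) z)‖ ^ q) := by
    intro σ
    have e1 : t • ph a k σ J = (QQ a k t σ J - PP a k J) -
        (t * (1 / 2) ^ J.card) • ∑ I ∈ J.powerset, ph a k σ (J \ I) * GG a k t σ I := by
      rw [key_id k t σ J]; ring
    have h1 : t * ‖a.T (ph a k σ J) z‖ ≤ ‖a.T (QQ a k t σ J - PP a k J) z‖ +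
        t * ∑ I ∈ J.powerset, (1 / 2) ^ J.card *
        ‖a.T (ph a k σ (J \ I)) (a.T (GG a k t σ I) z)‖ := by
      have e2 : t * ‖a.T (ph a k σ J) z‖ = ‖a.T (t • ph a k σ J) z‖ := by
        rw [T_smul, norm_smul, Real.norm_of_nonneg ht0.le]
      rw [e2, e1, T_sub]
      refine (norm_sub_le _ _).trans (add_le_add le_rfl ?_)
      rw [T_smul, norm_smul, Real.norm_of_nonneg (by positivity), T_sum, mul_assoc]
      apply mul_le_mul_of_nonneg_left _ ht0.le
      rw [← Finset.mul_sum]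
      apply mul_le_mul_of_nonneg_left _ (by positivity)
      refine (norm_sum_le _ _).trans (Finset.sum_le_sum fun I _ => ?_)
      rw [T_mul]
    have hs0 : 0 ≤ ∑ I ∈ J.powerset, (1 / 2 : ℝ) ^ J.card *
        ‖a.T (ph a k σ (J \ I)) (a.T (GG a k t σ I) z)‖ :=
      Finset.sum_nonneg fun I _ => mul_nonneg (by positivity) (norm_nonneg _)
    rw [← Real.mul_rpow ht0.le (norm_nonneg _)]
    refine (Real.rpow_le_rpow (mul_nonneg ht0.le (norm_nonneg _)) h1 hq0).trans ?_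
    refine (two_pow (norm_nonneg _) (mul_nonneg ht0.le hs0) hq).trans ?_
    apply mul_le_mul_of_nonneg_left _ (by positivity)
    apply add_le_add le_rfl
    rw [Real.mul_rpow ht0.le hs0]
    apply mul_le_mul_of_nonneg_left _ (by positivity)
    apply Real.rpow_arith_mean_le_arith_mean_rpow _ _ _ (fun _ _ => by positivity) _
      (fun _ _ => norm_nonneg _) hq
    rw [Finset.sum_const, Finset.card_powerset, nsmul_eq_mul]
    push_cast
    rw [← mul_pow]; norm_num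
  have h2 := Finset.sum_le_sum fun (σ : Fin n → ℤˣ) (_ : σ ∈ univ) => hpt σ
  rw [← Finset.mul_sum, ← Finset.mul_sum, Finset.sum_add_distrib, ← Finset.mul_sum,
    Finset.sum_comm] at h2
  have h3 := step_avg (a := a) (k := k) hk (τ := 2 * t) (by linarith) (by linarith) hq J z
  rw [mul_div_cancel_left₀ t (by norm_num : (2 : ℝ) ≠ 0), div_le_iff₀ (by positivity)] at h3
  have h4 : ∑ I ∈ J.powerset, ∑ σ : Fin n → ℤˣ, (1 / 2 : ℝ) ^ J.card *
        ‖a.T (ph a k σ (J \ I)) (a.T (GG a k t σ I) z)‖ ^ q ≤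
      B * ((1 / 2) ^ q * Del a q z) * 2 ^ n := by
    have h5 : ∀ I ∈ J.powerset, ∑ σ : Fin n → ℤˣ, (1 / 2 : ℝ) ^ J.card *
        ‖a.T (ph a k σ (J \ I)) (a.T (GG a k t σ I) z)‖ ^ q ≤
        (1 / 2 : ℝ) ^ J.card * (B * ((1 / 2) ^ q * Del a q z) * 2 ^ n) := by
      intro I _
      rw [← Finset.mul_sum]
      apply mul_le_mul_of_nonneg_left _ (by positivity)
      have h6 := prod_term (a := a) hk hq hB ht H J I z
      rwa [div_le_iff₀ (by positivity)] at h6
    refine (Finset.sum_le_sum h5).trans (le_of_eq ?_)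
    rw [← Finset.sum_mul, Finset.sum_const, Finset.card_powerset, nsmul_eq_mul]
    push_cast
    rw [← mul_pow]; norm_num
  have hD := Del_nonneg (a := a) q z
  have htq : 0 < t ^ q := Real.rpow_pos_of_pos ht0 q
  have h2n : (0 : ℝ) < 2 ^ n := by positivity
  rw [div_le_iff₀ h2n]
  have h2q : (2 : ℝ) ^ q = 2 ^ (q - 1) * 2 := by
    rw [← Real.rpow_add_one (by norm_num)]; congr 1; ring
  have hhalf : (2 : ℝ) ^ (q - 1) * (1 / 2) ^ q = 1 / 2 := by
    rw [one_div, Real.inv_rpow (by norm_num), h2q]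
    have : (0 : ℝ) < 2 ^ (q - 1) := by positivity
    field_simp
  have h4q : (4 / t) ^ q * t ^ q = 2 ^ q * 2 ^ q := by
    rw [← Real.mul_rpow (by positivity) ht0.le, div_mul_cancel₀ _ ht0.ne',
      ← Real.mul_rpow (by norm_num) (by norm_num)]
    norm_num
  have h7 : t ^ q * ∑ σ : Fin n → ℤˣ, ‖a.T (ph a k σ J) z‖ ^ q ≤
      t ^ q * ((1 / 2 * (4 / t) ^ q + 1 / 2 * B) * Del a q z * 2 ^ n) := by
    refine h2.trans ?_
    have h8 : t ^ q * ∑ I ∈ J.powerset, ∑ σ : Fin n → ℤˣ, (1 / 2 : ℝ) ^ J.card *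
        ‖a.T (ph a k σ (J \ I)) (a.T (GG a k t σ I) z)‖ ^ q ≤
      t ^ q * (B * ((1 / 2) ^ q * Del a q z) * 2 ^ n) := mul_le_mul_of_nonneg_left h4 htq.le
    calc _ ≤ 2 ^ (q - 1) * (2 ^ q * Del a q z * 2 ^ n +
        t ^ q * (B * ((1 / 2) ^ q * Del a q z) * 2 ^ n)) :=
          mul_le_mul_of_nonneg_left (add_le_add h3 h8) (by positivity)
      _ = (1 / 2) * (2 ^ q * 2 ^ q) * (Del a q z * 2 ^ n) +
          (2 ^ (q - 1) * (1 / 2) ^ q) * (t ^ q * B * Del a q z * 2 ^ n) := by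
          rw [h2q]; ring
      _ = (1 / 2) * ((4 / t) ^ q * t ^ q) * (Del a q z * 2 ^ n) +
          (1 / 2) * (t ^ q * B * Del a q z * 2 ^ n) := by rw [hhalf, h4q]
      _ = _ := by ring
  exact le_of_mul_le_mul_left h7 htq

lemma HH.mono {k : ℕ} {q B B' : ℝ} (H : HH a k q B) (h : B ≤ B') : HH a k q B' := fun J z =>
  (H J z).trans (mul_le_mul_of_nonneg_right h (Del_nonneg _ _))

lemma cst_e_le {q : ℝ} (hq : 0 < q) (z : Z) (j : Fin n) :
    cst a z (Pi.single j 1) ≤ (3 ^ n * Del a q z) ^ (1 / q) := by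
  classical
  have h1 : cst a z (Pi.single j 1) ^ q ≤ 3 ^ n * Del a q z := by
    unfold Del
    rw [mul_div_cancel₀ _ (by positivity)]
    apply Finset.single_le_sum (f := fun ε : Fin n → ℤ => cst a z ε ^ q)
      (fun _ _ => Real.rpow_nonneg (cst_nonneg _ _) _)
    rw [Fintype.mem_piFinset]
    intro i
    by_cases h : i = j
    · subst h; simp
    · rw [Pi.single_eq_of_ne h]; simp
  have h2 := Real.rpow_le_rpow (Real.rpow_nonneg (cst_nonneg _ _) _) h1 (by positivity : 0 ≤ 1 / q)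
  rwa [← Real.rpow_mul (cst_nonneg _ _), mul_one_div_cancel hq.ne', Real.rpow_one] at h2

lemma HH_init {k : ℕ} (hk : 0 < k) {q : ℝ} (hq : 1 ≤ q) :
    HH a k q ((n : ℝ) ^ q * 3 ^ n) := by
  classical
  intro J z
  have hq0 : 0 < q := by linarith
  set D := (3 ^ n * Del a q z) ^ (1 / q) with hD
  have hΔ := Del_nonneg (a := a) q z
  have hD0 : 0 ≤ D := by positivity
  have h1 : ∀ σ : Fin n → ℤˣ, ‖a.T (ph a k σ J) z‖ ≤ n * D := by
    intro σ
    unfold ph
    rw [T_sum]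
    have h2 : ∀ j ∈ J, ‖a.T (sk a k σ j * PP a k (J.erase j)) z‖ ≤ D := by
      intro j _
      have e : sk a k σ j * PP a k (J.erase j) =
          ((σ j : ℤ) : ℝ) • ((pt a k j * PP a k (J.erase j)) * (a.X (Pi.single j 1) - 1)) := by
        rw [sk, rk, smul_mul_assoc]
        congr 1
        unfold xj
        ring
      rw [e, T_smul, norm_smul, Real.norm_eq_abs, MC.unit_abs, one_mul, T_mul]
      have h3 := (Bd_pt (a := a) j hk).mul (Bd_PP hk (J.erase j)) zero_le_one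
      have h4 := h3 (a.T (a.X (Pi.single j 1) - 1) z)
      rw [mul_one, one_mul] at h4
      exact h4.trans (cst_e_le hq0 z j)
    refine (norm_sum_le _ _).trans ((Finset.sum_le_sum h2).trans ?_)
    rw [Finset.sum_const, nsmul_eq_mul]
    apply mul_le_mul_of_nonneg_right _ hD0
    have : J.card ≤ n := by
      calc J.card ≤ (univ : Finset (Fin n)).card := Finset.card_le_card (Finset.subset_univ J)
        _ = n := by simp
    exact_mod_cast this
  rw [div_le_iff₀ (by positivity)]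
  have h5 : ∀ σ ∈ (univ : Finset (Fin n → ℤˣ)), ‖a.T (ph a k σ J) z‖ ^ q ≤
      (n : ℝ) ^ q * 3 ^ n * Del a q z := by
    intro σ _
    refine (Real.rpow_le_rpow (norm_nonneg _) (h1 σ) hq0.le).trans (le_of_eq ?_)
    rw [Real.mul_rpow (by positivity) hD0, hD, ← Real.rpow_mul (by positivity),
      one_div_mul_cancel hq0.ne', Real.rpow_one]
    ring
  refine (Finset.sum_le_sum h5).trans (le_of_eq ?_)
  simp
  ring

/-- the first-order bound -/
theorem first_order {k : ℕ} {q t : ℝ} (hk : 0 < k) (hq : 1 ≤ q) (ht0 : 0 < t)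
    (ht1 : t ≤ 1 / 2) (ht : 80 * t ^ 2 * n ≤ (k : ℝ) ^ 2) : HH a k q ((4 / t) ^ q) := by
  set L := (4 / t) ^ q with hL
  have hL0 : 0 ≤ L := by positivity
  set B0 := (n : ℝ) ^ q * 3 ^ n with hB0
  have hB00 : 0 ≤ B0 := by positivity
  have h1 : ∀ i : ℕ, HH a k q (L + B0 * (1 / 2) ^ i) := by
    intro i
    induction i with
    | zero =>
      exact (HH_init hk hq).mono (by simp; linarith)
    | succ i ih =>
      have h2 := improve hk hq (by positivity) ht0 ht1 ht ih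
      refine h2.mono (le_of_eq ?_)
      rw [pow_succ]
      ring
  intro J z
  have h3 : Filter.Tendsto (fun i : ℕ => (L + B0 * (1 / 2) ^ i) * Del a q z) Filter.atTop
      (nhds ((L + B0 * 0) * Del a q z)) := by
    apply Filter.Tendsto.mul_const
    apply Filter.Tendsto.const_add
    apply Filter.Tendsto.const_mul
    exact tendsto_pow_atTop_nhds_zero_of_lt_one (by norm_num) (by norm_num)
  have h4 := ge_of_tendsto' h3 fun i => h1 i J z
  simpa using h4

end Pool.Agent.H16.GC
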