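import Mathlib
import Pool.Agent.H16.GC.Absorb

set_option autoImplicit false
set_option linter.unusedSectionVars false

namespace Pool.Agent.H16.GC
open Finset
open Pool.Agent.H16.MC (two_pow Cot)

universe u

variable {n : ℕ} {K : Type} [CommRing K] [Algebra ℝ K] {Z : Type u} [NormedAddCommGroup Z]
    [NormedSpace ℝ Z] {a : Act n K Z}

/-- the inverse generator -/
def xi (a : Act n K Z) (j : Fin n) : K := a.X (-Pi.single j 1)

lemma xi_pow (j : Fin n) (l : ℕ) : xi a j ^ l = a.X (l • -Pi.single j 1) := by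
  rw [X_nsmul]; rfl

lemma Bd_xi_pow (j : Fin n) (l : ℕ) : Bd a (xi a j ^ l) 1 := by
  rw [xi_pow]; exact Bd.X _

lemma gs_prod (j : Fin n) (L : ℕ) : gs a j (2 ^ L) = ∏ i ∈ range L, (1 + xj a j ^ (2 ^ i)) := by
  induction L with
  | zero => simp [gs]
  | succ L ih => rw [pow_succ, mul_comm, gs_two, ih, Finset.prod_range_succ]

/-- reflected box kernel -/
noncomputable def pm (a : Act n K Z) (L : ℕ) (j : Fin n) : K :=
  ∏ i ∈ range L, ((1 / 2 : ℝ) • (1 + xi a j ^ (2 ^ i)))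

noncomputable def SS (a : Act n K Z) (L : ℕ) : K := ∏ j : Fin n, pm a L j

lemma Bd_pm (L : ℕ) (j : Fin n) : Bd a (pm a L j) 1 := by
  have h := Bd.prod (a := a) (range L) (ν := fun i => (1 / 2 : ℝ) • (1 + xi a j ^ (2 ^ i)))
    (C := fun _ => 1) (by
      intro i _
      refine ((Bd.one.add (Bd_xi_pow j _)).smul (1 / 2 : ℝ)).mono ?_
      rw [abs_of_nonneg (by norm_num)]; norm_num) (fun _ _ => zero_le_one)
  simpa [pm] using h

lemma Bd_SS (L : ℕ) : Bd a (SS a L) 1 := by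
  have h := Bd.prod (a := a) univ (ν := fun j => pm a L j) (C := fun _ => 1)
    (fun j _ => Bd_pm L j) (fun _ _ => zero_le_one)
  simpa [SS] using h

lemma pk_prod (e : ℕ) (j : Fin n) :
    pk a (2 ^ e) j = ∏ i ∈ range (e + 1), ((1 / 2 : ℝ) • (1 + xj a j ^ (2 ^ i))) := by
  rw [Finset.prod_smul, ← gs_prod, pow_succ 2 e, mul_comm (2 ^ e) 2, gs_two, pk, uk]
  rw [smul_mul_assoc, smul_smul, Finset.prod_const, Finset.card_range]
  congr 1
  push_cast
  rw [pow_succ, one_div_pow]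
  ring

/-- one scale of the symmetric smoothing -/
noncomputable def Hi (a : Act n K Z) (i : ℕ) : K :=
  ∏ j : Fin n, (((1 / 2 : ℝ) • (1 + xj a j ^ (2 ^ i))) * ((1 / 2 : ℝ) • (1 + xi a j ^ (2 ^ i))))

lemma PP_SS (e : ℕ) : PP a (2 ^ e) univ * SS a (e + 1) = ∏ i ∈ range (e + 1), Hi a i := by
  unfold PP SS Hi
  rw [← Finset.prod_mul_distrib]
  have : ∀ j ∈ (univ : Finset (Fin n)), pk a (2 ^ e) j * pm a (e + 1) j =
      ∏ i ∈ range (e + 1), (((1 / 2 : ℝ) • (1 + xj a j ^ (2 ^ i))) *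
        ((1 / 2 : ℝ) • (1 + xi a j ^ (2 ^ i)))) := by
    intro j _
    rw [pk_prod, pm, ← Finset.prod_mul_distrib]
  rw [Finset.prod_congr rfl this, Finset.prod_comm]

lemma xj_xi (j : Fin n) (l : ℕ) : xj a j ^ l * xi a j ^ l = 1 := by
  rw [← mul_pow]
  have : xj a j * xi a j = 1 := by
    unfold xj xi
    rw [← a.X_add, add_neg_cancel, a.X_zero]
  rw [this, one_pow]

lemma vv_sum (f : ℤ → K) : ∑ w : ℤˣ × Bool, f (vv w) = f 1 + f (-1) + 2 • f 0 := by
  have : (univ : Finset (ℤˣ × Bool)) = {(1, true), (-1, true), (1, false), (-1, false)} := by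
    decide
  rw [this, Finset.sum_insert (by decide), Finset.sum_insert (by decide),
    Finset.sum_insert (by decide), Finset.sum_singleton]
  have e1 : vv ((1 : ℤˣ), true) = 1 := rfl
  have e2 : vv ((-1 : ℤˣ), true) = -1 := rfl
  have e3 : vv ((1 : ℤˣ), false) = 0 := rfl
  have e4 : vv ((-1 : ℤˣ), false) = 0 := rfl
  rw [e1, e2, e3, e4, two_nsmul]
  ring

lemma Hi_expand (i : ℕ) : Hi a i = ∑ w : Fin n → ℤˣ × Bool,
    ((1 / 4 : ℝ) ^ n) • a.X ((2 ^ i : ℕ) • (fun j => vv (w j))) := by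
  classical
  have e1 : ∀ j : Fin n, ((1 / 2 : ℝ) • (1 + xj a j ^ (2 ^ i))) *
      ((1 / 2 : ℝ) • (1 + xi a j ^ (2 ^ i))) =
      ∑ w : ℤˣ × Bool, (1 / 4 : ℝ) • a.X ((2 ^ i : ℕ) • Pi.single j (vv w)) := by
    intro j
    rw [vv_sum (fun v => (1 / 4 : ℝ) • a.X ((2 ^ i : ℕ) • (Pi.single j v : Fin n → ℤ)))]
    have e2 : a.X ((2 ^ i : ℕ) • Pi.single j (1 : ℤ)) = xj a j ^ (2 ^ i) := (xj_pow j _).symm
    have e3 : a.X ((2 ^ i : ℕ) • Pi.single j (-1 : ℤ)) = xi a j ^ (2 ^ i) := by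
      rw [xi_pow, ← Pi.single_neg]
    have e4 : a.X ((2 ^ i : ℕ) • Pi.single j (0 : ℤ)) = 1 := by
      rw [Pi.single_zero, smul_zero, a.X_zero]
    rw [e2, e3, e4, smul_mul_smul_comm]
    have e5 : (1 + xj a j ^ 2 ^ i) * (1 + xi a j ^ 2 ^ i) =
        2 • (1 : K) + xj a j ^ 2 ^ i + xi a j ^ 2 ^ i := by
      have := xj_xi (a := a) j (2 ^ i)
      calc (1 + xj a j ^ 2 ^ i) * (1 + xi a j ^ 2 ^ i) =
          1 + xj a j ^ 2 ^ i + xi a j ^ 2 ^ i + xj a j ^ 2 ^ i * xi a j ^ 2 ^ i := by ring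
        _ = _ := by rw [this, two_nsmul]; ring
    rw [e5]
    have : (1 / 2 : ℝ) * (1 / 2) = 1 / 4 := by norm_num
    rw [this, smul_add, smul_add, two_nsmul, two_nsmul, smul_add]
    abel
  unfold Hi
  simp only [e1]
  rw [Finset.prod_univ_sum (fun _ => univ), Fintype.piFinset_univ]
  apply Finset.sum_congr rfl
  intro w _
  rw [Finset.prod_smul, Finset.prod_const, Finset.card_univ, Fintype.card_fin, ← X_sum]
  congr 2
  rw [← Finset.smul_sum, Finset.univ_sum_single]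

lemma stp_univ (w : Fin n → ℤˣ × Bool) :
    stp univ (fun j => (w j).1) (fun j => (w j).2) = fun j => vv (w j) := by
  funext j
  simp [stp]

lemma Hi_cost (i : ℕ) {q : ℝ} (hq : 1 ≤ q) (z : Z) :
    ‖a.T (Hi a i - 1) z‖ ≤ 2 ^ (i + 1) * (Del a q z) ^ (1 / q) := by
  classical
  have hq0 : 0 < q := by linarith
  have hD := Del_nonneg (a := a) q z
  have hcard : ∑ _w : Fin n → ℤˣ × Bool, (1 / 4 : ℝ) ^ n = 1 := by
    rw [Finset.sum_const, Finset.card_univ, Fintype.card_fun, Fintype.card_prod,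
      Fintype.card_fin, Fintype.card_units_int, Fintype.card_bool, nsmul_eq_mul]
    push_cast
    rw [← mul_pow]; norm_num
  have e1 : Hi a i - 1 = ∑ w : Fin n → ℤˣ × Bool,
      ((1 / 4 : ℝ) ^ n) • (a.X ((2 ^ i : ℕ) • (fun j => vv (w j))) - 1) := by
    rw [Hi_expand]
    simp only [smul_sub]
    rw [Finset.sum_sub_distrib, ← Finset.sum_smul, hcard, one_smul]
  have h1 : ‖a.T (Hi a i - 1) z‖ ≤ 2 ^ i * ∑ w : Fin n → ℤˣ × Bool,
      (1 / 4 : ℝ) ^ n * cst a z (fun j => vv (w j)) := by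
    rw [e1, T_sum, Finset.mul_sum]
    refine (norm_sum_le _ _).trans (Finset.sum_le_sum fun w _ => ?_)
    rw [T_smul, norm_smul, Real.norm_of_nonneg (by positivity)]
    have h2 := cst_nsmul (a := a) z (fun j => vv (w j)) (2 ^ i)
    push_cast at h2
    calc (1 / 4 : ℝ) ^ n * ‖a.T (a.X ((2 ^ i : ℕ) • (fun j => vv (w j))) - 1) z‖
        ≤ (1 / 4 : ℝ) ^ n * (2 ^ i * cst a z (fun j => vv (w j))) :=
          mul_le_mul_of_nonneg_left h2 (by positivity)
      _ = _ := by ring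
  have h3 := Real.rpow_arith_mean_le_arith_mean_rpow (univ : Finset (Fin n → ℤˣ × Bool))
    (fun _ => (1 / 4 : ℝ) ^ n) (fun w => cst a z (fun j => vv (w j)))
    (fun _ _ => by positivity) hcard (fun _ _ => cst_nonneg _ _) hq
  have h4 : ∑ w : Fin n → ℤˣ × Bool, (1 / 4 : ℝ) ^ n * cst a z (fun j => vv (w j)) ^ q ≤
      2 ^ q * Del a q z := by
    refine le_trans (le_of_eq ?_) (law (a := a) hq univ z)
    rw [← Finset.mul_sum,
      ← Equiv.sum_comp (Equiv.arrowProdEquivProdArrow (Fin n) (fun _ => ℤˣ) (fun _ => Bool)).symm,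
      Fintype.sum_prod_type, one_div_pow, one_div_mul_eq_div]
    congr 1
    apply Finset.sum_congr rfl
    intro σ _
    apply Finset.sum_congr rfl
    intro β _
    rw [← stp_univ]
    rfl
  have hs0 : 0 ≤ ∑ w : Fin n → ℤˣ × Bool, (1 / 4 : ℝ) ^ n * cst a z (fun j => vv (w j)) :=
    Finset.sum_nonneg fun _ _ => mul_nonneg (by positivity) (cst_nonneg _ _)
  have h5 := Real.rpow_le_rpow (Real.rpow_nonneg hs0 _) (h3.trans h4)
    (by positivity : 0 ≤ 1 / q)
  rw [← Real.rpow_mul hs0, mul_one_div_cancel hq0.ne', Real.rpow_one,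
    Real.mul_rpow (by positivity) hD, ← Real.rpow_mul (by norm_num), mul_one_div_cancel hq0.ne',
    Real.rpow_one] at h5
  refine h1.trans ?_
  calc 2 ^ i * ∑ w : Fin n → ℤˣ × Bool, (1 / 4 : ℝ) ^ n * cst a z (fun j => vv (w j))
      ≤ 2 ^ i * (2 * Del a q z ^ (1 / q)) := mul_le_mul_of_nonneg_left h5 (by positivity)
    _ = _ := by ring

lemma Bd_Hi (i : ℕ) : Bd a (Hi a i) 1 := by
  have h := Bd.prod (a := a) univ (ν := fun j => ((1 / 2 : ℝ) • (1 + xj a j ^ (2 ^ i))) *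
    ((1 / 2 : ℝ) • (1 + xi a j ^ (2 ^ i)))) (C := fun _ => 1) (by
      intro j _
      have h1 : Bd a ((1 / 2 : ℝ) • (1 + xj a j ^ (2 ^ i))) 1 := by
        refine ((Bd.one.add (Bd_xj_pow j _)).smul (1 / 2 : ℝ)).mono ?_
        rw [abs_of_nonneg (by norm_num)]; norm_num
      have h2 : Bd a ((1 / 2 : ℝ) • (1 + xi a j ^ (2 ^ i))) 1 := by
        refine ((Bd.one.add (Bd_xi_pow j _)).smul (1 / 2 : ℝ)).mono ?_
        rw [abs_of_nonneg (by norm_num)]; norm_num
      simpa using h1.mul h2 zero_le_one) (fun _ _ => zero_le_one)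
  simpa [Hi] using h

lemma Bd_prodHi (L : ℕ) : Bd a (∏ i ∈ range L, Hi a i) 1 := by
  have h := Bd.prod (a := a) (range L) (ν := fun i => Hi a i) (C := fun _ => 1)
    (fun i _ => Bd_Hi i) (fun _ _ => zero_le_one)
  simpa using h

lemma smooth_cost (L : ℕ) {q : ℝ} (hq : 1 ≤ q) (z : Z) :
    ‖a.T (∏ i ∈ range L, Hi a i - 1) z‖ ≤ (2 ^ (L + 1) - 2) * (Del a q z) ^ (1 / q) := by
  induction L with
  | zero => simp
  | succ L ih =>
    have e : ∏ i ∈ range (L + 1), Hi a i - 1 =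
        (∏ i ∈ range L, Hi a i) * (Hi a L - 1) + (∏ i ∈ range L, Hi a i - 1) := by
      rw [Finset.prod_range_succ]; ring
    rw [e, T_add, T_mul]
    have h1 := Bd_prodHi (a := a) L (a.T (Hi a L - 1) z)
    rw [one_mul] at h1
    have h2 := Hi_cost (a := a) L hq z
    refine (norm_add_le _ _).trans ((add_le_add (h1.trans h2) ih).trans (le_of_eq ?_))
    ring

lemma sum_bit {n : ℕ} (j : Fin n) (g : Bool → ℝ) :
    ∑ β : Fin n → Bool, g (β j) = 2 ^ n * ((g true + g false) / 2) := by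
  classical
  have hinv : Function.Involutive (fun β : Fin n → Bool => Function.update β j (!β j)) := by
    intro β
    funext i
    by_cases h : i = j
    · subst h; simp
    · simp [h]
  have h1 : ∑ β : Fin n → Bool, g (β j) = ∑ β : Fin n → Bool, g (!β j) := by
    rw [← Equiv.sum_comp (Function.Involutive.toPerm _ hinv)]
    apply Finset.sum_congr rfl
    intro β _
    simp
  have h2 : ∑ β : Fin n → Bool, g (β j) + ∑ β : Fin n → Bool, g (!β j) =
      2 ^ n * (g true + g false) := by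
    rw [← Finset.sum_add_distrib]
    have : ∀ β : Fin n → Bool, g (β j) + g (!β j) = g true + g false := by
      intro β
      cases β j
      · simp [add_comm]
      · simp
    simp only [this, Finset.sum_const, Finset.card_univ, Fintype.card_fun, Fintype.card_bool,
      Fintype.card_fin, nsmul_eq_mul]
    push_cast
    rfl
  linarith

lemma cst_e {q : ℝ} (hq : 1 ≤ q) (z : Z) (j : Fin n) :
    cst a z (Pi.single j 1) ≤ 4 * (Del a q z) ^ (1 / q) := by
  classical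
  have hq0 : 0 < q := by linarith
  have hD := Del_nonneg (a := a) q z
  have h1 := law (a := a) hq {j} z
  have e1 : ∀ (σ : Fin n → ℤˣ) (β : Fin n → Bool), cst a z (stp {j} σ β) ^ q =
      if β j then cst a z (Pi.single j 1) ^ q else 0 := by
    intro σ β
    have e2 : stp {j} σ β = Pi.single j (vv (σ j, β j)) := by
      funext i
      simp only [stp, Finset.mem_singleton]
      by_cases h : i = j
      · subst h; simp
      · rw [if_neg h, Pi.single_eq_of_ne h]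
    rw [e2]
    by_cases hb : β j = true
    · rw [if_pos hb]
      simp only [vv, hb, if_true]
      rcases Int.units_eq_one_or (σ j) with h | h
      · rw [h]; rfl
      · rw [h]
        have : (Pi.single j ((-1 : ℤˣ) : ℤ) : Fin n → ℤ) = -Pi.single j 1 := by
          rw [← Pi.single_neg]; rfl
        rw [this, cst_neg]
    · rw [if_neg hb]
      simp only [vv]
      rw [if_neg hb, Pi.single_zero, cst_zero, Real.zero_rpow hq0.ne']
  simp only [e1] at h1
  rw [Finset.sum_const, Finset.card_univ, Fintype.card_fun, Fintype.card_fin,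
    Fintype.card_units_int, nsmul_eq_mul,
    sum_bit j (fun b => if b then cst a z (Pi.single j 1) ^ q else 0)] at h1
  simp only [if_true, Bool.false_eq_true, if_false, add_zero] at h1
  push_cast at h1
  have h4 : (4 : ℝ) ^ n = 2 ^ n * 2 ^ n := by rw [← mul_pow]; norm_num
  have h2 : cst a z (Pi.single j 1) ^ q / 2 ≤ 2 ^ q * Del a q z := by
    rw [h4, ← mul_assoc, mul_div_cancel_left₀ _ (by positivity)] at h1
    exact h1
  have h3 : cst a z (Pi.single j 1) ^ q ≤ 4 ^ q * Del a q z := by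
    have h5 : (4 : ℝ) ^ q = 2 ^ q * 2 ^ q := by
      rw [← Real.mul_rpow (by norm_num) (by norm_num)]; norm_num
    have h6 : (2 : ℝ) ≤ 2 ^ q := by
      calc (2 : ℝ) = 2 ^ (1 : ℝ) := by rw [Real.rpow_one]
        _ ≤ 2 ^ q := Real.rpow_le_rpow_of_exponent_le (by norm_num) hq
    have h7 : 2 * (2 ^ q * Del a q z) ≤ 2 ^ q * (2 ^ q * Del a q z) :=
      mul_le_mul_of_nonneg_right h6 (by positivity)
    rw [h5]
    linarith
  have h8 := Real.rpow_le_rpow (Real.rpow_nonneg (cst_nonneg _ _) _) h3 (by positivity : 0 ≤ 1 / q)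
  rwa [← Real.rpow_mul (cst_nonneg _ _), Real.mul_rpow (by positivity) hD,
    ← Real.rpow_mul (by norm_num), mul_one_div_cancel hq0.ne', Real.rpow_one, Real.rpow_one] at h8

lemma pow_cost (z : Z) (j : Fin n) (l : ℕ) :
    ‖a.T (xj a j ^ l - 1) z‖ ≤ l * cst a z (Pi.single j 1) := by
  rw [xj_pow]
  exact cst_nsmul z _ l

lemma uk_cost {k : ℕ} (hk : 0 < k) (z : Z) (j : Fin n) :
    ‖a.T (uk a j k - 1) z‖ ≤ k * cst a z (Pi.single j 1) := by
  have hk0 : (0 : ℝ) < k := by exact_mod_cast hk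
  have e : uk a j k - 1 = (1 / (k : ℝ)) • ∑ l ∈ range k, (xj a j ^ l - 1) := by
    rw [uk, gs, Finset.sum_sub_distrib, smul_sub, Finset.sum_const, Finset.card_range,
      ← Nat.cast_smul_eq_nsmul ℝ, smul_smul, one_div_mul_cancel hk0.ne', one_smul]
  rw [e, T_smul, norm_smul, Real.norm_of_nonneg (by positivity), T_sum]
  have h1 : ‖∑ l ∈ range k, a.T (xj a j ^ l - 1) z‖ ≤ k * (k * cst a z (Pi.single j 1)) := by
    refine (norm_sum_le _ _).trans ?_
    have h2 : ∀ l ∈ range k, ‖a.T (xj a j ^ l - 1) z‖ ≤ k * cst a z (Pi.single j 1) := by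
      intro l hl
      refine (pow_cost z j l).trans (mul_le_mul_of_nonneg_right ?_ (cst_nonneg _ _))
      exact_mod_cast (Finset.mem_range.mp hl).le
    refine (Finset.sum_le_sum h2).trans (le_of_eq ?_)
    rw [Finset.sum_const, Finset.card_range, nsmul_eq_mul]
  rw [one_div, inv_mul_le_iff₀ hk0]
  exact h1

/-- the smoothed vector in direction `j` -/
noncomputable def fj (a : Act n K Z) (e : ℕ) (j : Fin n) (f : Z) : Z :=
  a.T (pt a (2 ^ e) j * PP a (2 ^ e) (univ.erase j) * SS a (e + 1)) f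

lemma fj_close (e : ℕ) {q : ℝ} (hq : 1 ≤ q) (j : Fin n) (f : Z) :
    ‖fj a e j f - f‖ ≤ 10 * 2 ^ e * (Del a q f) ^ (1 / q) := by
  classical
  have hk : 0 < 2 ^ e := by positivity
  set D := (Del a q f) ^ (1 / q) with hD
  have hD0 : 0 ≤ D := Real.rpow_nonneg (Del_nonneg _ _) _
  have e1 : pt a (2 ^ e) j * PP a (2 ^ e) (univ.erase j) * SS a (e + 1) - 1 =
      (∏ i ∈ range (e + 1), Hi a i - 1) +
      (uk a j (2 ^ e) * PP a (2 ^ e) (univ.erase j) * SS a (e + 1)) *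
        ((uk a j (2 ^ e) - 1) - (1 / 2 : ℝ) • (xj a j ^ (2 ^ e) - 1)) := by
    rw [← PP_SS]
    have : PP a (2 ^ e) univ = pk a (2 ^ e) j * PP a (2 ^ e) (univ.erase j) := by
      unfold PP
      rw [Finset.mul_prod_erase _ _ (Finset.mem_univ j)]
    rw [this, pk, pt]
    have h2 : (1 / 2 : ℝ) • (uk a j (2 ^ e) * (1 + xj a j ^ (2 ^ e))) =
        uk a j (2 ^ e) * (1 + (1 / 2 : ℝ) • (xj a j ^ (2 ^ e) - 1)) := by
      rw [← mul_smul_comm]
      congr 1
      rw [smul_sub, smul_add]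
      have : (1 : K) = (1 / 2 : ℝ) • (1 : K) + (1 / 2 : ℝ) • (1 : K) := by
        rw [← add_smul]; norm_num
      nth_rewrite 2 [this]
      abel
    rw [h2]
    ring
  have e2 : fj a e j f - f = a.T (pt a (2 ^ e) j * PP a (2 ^ e) (univ.erase j) * SS a (e + 1) - 1) f := by
    rw [T_sub, T_one]; rfl
  rw [e2, e1, T_add, T_mul]
  have hB : Bd a (uk a j (2 ^ e) * PP a (2 ^ e) (univ.erase j) * SS a (e + 1)) 1 := by
    have := ((Bd_uk (a := a) j hk).mul (Bd_PP hk (univ.erase j)) zero_le_one).mul (Bd_SS (e + 1))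
      (by norm_num)
    simpa using this
  have h1 := smooth_cost (a := a) (e + 1) hq f
  have h2 := hB (a.T ((uk a j (2 ^ e) - 1) - (1 / 2 : ℝ) • (xj a j ^ (2 ^ e) - 1)) f)
  rw [one_mul] at h2
  have h3 : ‖a.T ((uk a j (2 ^ e) - 1) - (1 / 2 : ℝ) • (xj a j ^ (2 ^ e) - 1)) f‖ ≤
      6 * 2 ^ e * D := by
    rw [T_sub, T_smul]
    have h4 := uk_cost (a := a) hk f j
    have h5 := pow_cost (a := a) f j (2 ^ e)
    have h6 := cst_e (a := a) hq f j
    push_cast at h4 h5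
    refine (norm_sub_le _ _).trans ?_
    rw [norm_smul, Real.norm_of_nonneg (by norm_num)]
    have h7 : (2 : ℝ) ^ e * cst a f (Pi.single j 1) ≤ 2 ^ e * (4 * D) :=
      mul_le_mul_of_nonneg_left h6 (by positivity)
    linarith
  have h8 : ((2 : ℝ) ^ (e + 1 + 1) - 2) * D ≤ 4 * 2 ^ e * D := by
    apply mul_le_mul_of_nonneg_right _ hD0
    have : (2 : ℝ) ^ (e + 1 + 1) = 4 * 2 ^ e := by ring
    linarith
  refine (norm_add_le _ _).trans ?_
  linarith

/-- the main estimate for an isometric action -/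
theorem action_main {q C t : ℝ} (hq : 1 ≤ q) (hC : Cot Z q C) (hC0 : 0 ≤ C) (e : ℕ) (ht0 : 0 < t)
    (ht1 : t ≤ 1 / 2) (ht : 80 * t ^ 2 * n ≤ ((2 : ℝ) ^ e) ^ 2) (M : ℕ) (f : Z) :
    ∑ j : Fin n, ‖a.T (xj a j ^ M - 1) f‖ ^ q ≤
      2 ^ (q - 1) * (n * (20 * 2 ^ e) ^ q + (M * C * (4 / t)) ^ q) * Del a q f := by
  classical
  have hq0 : 0 < q := by linarith
  have hk : 0 < 2 ^ e := by positivity
  have hΔ := Del_nonneg (a := a) q f
  set D := (Del a q f) ^ (1 / q) with hD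
  have hD0 : 0 ≤ D := Real.rpow_nonneg hΔ _
  have hDq : D ^ q = Del a q f := by
    rw [hD, ← Real.rpow_mul hΔ, one_div_mul_cancel hq0.ne', Real.rpow_one]
  set zj : Fin n → Z := fun j => a.T (rk a (2 ^ e) j * PP a (2 ^ e) (univ.erase j)) (a.T (SS a (e + 1)) f)
    with hzj
  have hz1 : ∀ j, zj j = a.T (xj a j - 1) (fj a e j f) := by
    intro j
    simp only [hzj, fj]
    rw [← T_mul, ← T_mul]
    congr 1
    rw [rk]
    congr 1
    ring
  -- cotype
  have h1 : ∑ j, ‖zj j‖ ^ q ≤ C ^ q * ((4 / t) ^ q * Del a q f) := by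
    refine (hC n zj).trans ?_
    apply mul_le_mul_of_nonneg_left _ (Real.rpow_nonneg hC0 q)
    have h2 := first_order (a := a) (k := 2 ^ e) hk hq ht0 ht1 (by push_cast; exact ht) univ
      (a.T (SS a (e + 1)) f)
    have e1 : ∀ σ : Fin n → ℤˣ, ∑ j, (σ j : ℤ) • zj j =
        a.T (ph a (2 ^ e) σ univ) (a.T (SS a (e + 1)) f) := by
      intro σ
      rw [ph, T_sum]
      apply Finset.sum_congr rfl
      intro j _
      rw [sk, smul_mul_assoc, T_smul]
      simp only [hzj]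
      rw [← Int.cast_smul_eq_zsmul ℝ]
    simp only [e1]
    refine h2.trans ?_
    apply mul_le_mul_of_nonneg_left _ (by positivity)
    have h3 := Del_T (a := a) hq0.le zero_le_one (Bd_SS (e + 1)) f
    simpa using h3
  have h4 : ∀ j, ‖a.T (xj a j ^ M - 1) f‖ ≤ 20 * 2 ^ e * D + M * ‖zj j‖ := by
    intro j
    have e1 : a.T (xj a j ^ M - 1) f = a.T (xj a j ^ M - 1) (fj a e j f) -
        a.T (xj a j ^ M - 1) (fj a e j f - f) := by
      rw [LinearMap.map_sub (a.T (xj a j ^ M - 1)) (fj a e j f) f]; abel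
    have h5 := fj_close (a := a) e hq j f
    have h6 : ‖a.T (xj a j ^ M - 1) (fj a e j f - f)‖ ≤ 2 * ‖fj a e j f - f‖ := by
      have := ((Bd_xj_pow (a := a) j M).sub Bd.one) (fj a e j f - f)
      linarith
    have h7 : ‖a.T (xj a j ^ M - 1) (fj a e j f)‖ ≤ M * ‖zj j‖ := by
      rw [hz1]
      exact pow_cost (fj a e j f) j M
    rw [e1]
    refine (norm_sub_le _ _).trans ?_
    linarith
  have h5 : ∀ j ∈ (univ : Finset (Fin n)), ‖a.T (xj a j ^ M - 1) f‖ ^ q ≤
      2 ^ (q - 1) * ((20 * 2 ^ e * D) ^ q + (M : ℝ) ^ q * ‖zj j‖ ^ q) := by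
    intro j _
    refine (Real.rpow_le_rpow (norm_nonneg _) (h4 j) hq0.le).trans ?_
    refine (two_pow (by positivity) (by positivity) hq).trans ?_
    rw [Real.mul_rpow (by positivity) (norm_nonneg _)]
  refine (Finset.sum_le_sum h5).trans ?_
  rw [← Finset.mul_sum, Finset.sum_add_distrib, Finset.sum_const, Finset.card_univ,
    Fintype.card_fin, nsmul_eq_mul, ← Finset.mul_sum, Real.mul_rpow (by positivity) hD0, hDq]
  have e9 : ((M : ℝ) * C * (4 / t)) ^ q = (M : ℝ) ^ q * C ^ q * (4 / t) ^ q := by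
    rw [Real.mul_rpow (by positivity) (by positivity), Real.mul_rpow (by positivity) hC0]
  rw [e9]
  have h8 : (M : ℝ) ^ q * ∑ j, ‖zj j‖ ^ q ≤ (M : ℝ) ^ q * (C ^ q * ((4 / t) ^ q * Del a q f)) :=
        mul_le_mul_of_nonneg_left h1 (by positivity)
  calc 2 ^ (q - 1) * (n * ((20 * 2 ^ e) ^ q * Del a q f) + (M : ℝ) ^ q * ∑ j, ‖zj j‖ ^ q)
      ≤ 2 ^ (q - 1) * (n * ((20 * 2 ^ e) ^ q * Del a q f) +
        (M : ℝ) ^ q * (C ^ q * ((4 / t) ^ q * Del a q f))) :=
        mul_le_mul_of_nonneg_left (add_le_add le_rfl h8) (by positivity)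
    _ = _ := by ring

end Pool.Agent.H16.GC
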