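import Mathlib
import Pool.Agent.H16.GC.Cost
import Pool.Agent.H16.MC.Lim

set_option autoImplicit false
set_option linter.unusedSectionVars false

namespace Pool.Agent.H16.GC
open Finset
open Pool.Agent.H16.MC (two_pow Cot MCI)

universe u

section
variable {n m : ℕ} [NeZero m] {Y : Type u} [NormedAddCommGroup Y] [NormedSpace ℝ Y]

/-- the space of functions on the torus with the `ℓ_p` norm -/
abbrev ZZ (n m : ℕ) [NeZero m] (Y : Type u) [NormedAddCommGroup Y] (p : ENNReal) : Type u :=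
  PiLp p (fun _ : Fin n → ZMod m => Y)

/-- reduction modulo `m` -/
def red (v : Fin n → ℤ) : Fin n → ZMod m := fun j => (v j : ZMod m)

lemma red_add (v w : Fin n → ℤ) : (red (v + w) : Fin n → ZMod m) = red v + red w := by
  funext j; simp [red]

variable {p : ENNReal} [Fact (1 ≤ p)]

/-- translations -/
def tr (v : Fin n → ℤ) : ZZ n m Y p →ₗ[ℝ] ZZ n m Y p where
  toFun F := WithLp.toLp p (fun x => F (x + red v))
  map_add' F G := by ext x; simp
  map_smul' r F := by ext x; simp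

lemma tr_apply (v : Fin n → ℤ) (F : ZZ n m Y p) (x : Fin n → ZMod m) :
    tr v F x = F (x + red v) := rfl

lemma nrm_pow {q : ℝ} (hq : 1 ≤ q) (F : ZZ n m Y (ENNReal.ofReal q)) :
    haveI : Fact (1 ≤ ENNReal.ofReal q) := ⟨by simpa using hq⟩
    ‖F‖ ^ q = ∑ x, ‖F x‖ ^ q := by
  haveI : Fact (1 ≤ ENNReal.ofReal q) := ⟨by simpa using hq⟩
  have hq0 : 0 < q := by linarith
  have h1 : (ENNReal.ofReal q).toReal = q := ENNReal.toReal_ofReal hq0.le
  have h2 := PiLp.norm_eq_sum (p := ENNReal.ofReal q) (by rw [h1]; exact hq0) F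
  rw [h1] at h2
  rw [h2, ← Real.rpow_mul (Finset.sum_nonneg fun _ _ => Real.rpow_nonneg (norm_nonneg _) _),
    one_div_mul_cancel hq0.ne', Real.rpow_one]

end

section
variable {n m : ℕ} [NeZero m] {Y : Type u} [NormedAddCommGroup Y] [NormedSpace ℝ Y] {q : ℝ}

/-- translations as a monoid homomorphism -/
def trHom (p : ENNReal) [Fact (1 ≤ p)] :
    Multiplicative (Fin n → ℤ) →* Module.End ℝ (ZZ n m Y p) where
  toFun v := tr v.toAdd
  map_one' := by
    ext F x
    have e : (red (0 : Fin n → ℤ) : Fin n → ZMod m) = 0 := by funext j; simp [red]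
    change F (x + red (0 : Fin n → ℤ)) = F x
    rw [e, add_zero]
  map_mul' v w := by
    ext F x
    simp only [toAdd_mul]
    change F (x + red (v.toAdd + w.toAdd)) = F (x + red v.toAdd + red w.toAdd)
    rw [red_add, add_assoc]

/-- the action on functions on the torus -/
noncomputable def act (n m : ℕ) [NeZero m] (Y : Type u) [NormedAddCommGroup Y] [NormedSpace ℝ Y]
    {q : ℝ} (hq : 1 ≤ q) :
    haveI : Fact (1 ≤ ENNReal.ofReal q) := ⟨by simpa using hq⟩
    Act n (AddMonoidAlgebra ℝ (Fin n → ℤ)) (ZZ n m Y (ENNReal.ofReal q)) :=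
  haveI : Fact (1 ≤ ENNReal.ofReal q) := ⟨by simpa using hq⟩
  { T := AddMonoidAlgebra.lift ℝ _ _ (trHom (ENNReal.ofReal q))
    X := fun v => AddMonoidAlgebra.single v 1
    X_zero := rfl
    X_add := fun v w => by rw [AddMonoidAlgebra.single_mul_single, one_mul]
    iso := by
      intro v F
      rw [AddMonoidAlgebra.lift_single, one_smul]
      have hq0 : 0 < q := by linarith
      have e : ‖(trHom (n := n) (m := m) (Y := Y) (ENNReal.ofReal q)) (Multiplicative.ofAdd v) F‖ ^ q =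
          ‖F‖ ^ q := by
        rw [nrm_pow hq, nrm_pow hq]
        exact Equiv.sum_comp (Equiv.addRight (red v : Fin n → ZMod m)) (fun x => ‖F x‖ ^ q)
      have h1 := congrArg (fun r : ℝ => r ^ (1 / q)) e
      rwa [← Real.rpow_mul (norm_nonneg _), ← Real.rpow_mul (norm_nonneg _),
        mul_one_div_cancel hq0.ne', Real.rpow_one, Real.rpow_one] at h1 }

/-- cotype passes to functions -/
lemma cot_ZZ (hq : 1 ≤ q) {C : ℝ} (hC : Cot Y q C) :
    haveI : Fact (1 ≤ ENNReal.ofReal q) := ⟨by simpa using hq⟩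
    Cot (ZZ n m Y (ENNReal.ofReal q)) q C := by
  haveI : Fact (1 ≤ ENNReal.ofReal q) := ⟨by simpa using hq⟩
  intro k y
  have h1 : ∀ j, ‖y j‖ ^ q = ∑ x, ‖y j x‖ ^ q := fun j => nrm_pow hq (y j)
  have h2 : ∀ σ : Fin k → ℤˣ, ‖∑ j, (σ j : ℤ) • y j‖ ^ q =
      ∑ x, ‖∑ j, (σ j : ℤ) • (y j x)‖ ^ q := by
    intro σ
    rw [nrm_pow hq]
    apply Finset.sum_congr rfl
    intro x _
    have e3 : (∑ j, (σ j : ℤ) • y j) x = ∑ j, (σ j : ℤ) • (y j x) := by
      have : ∀ s : Finset (Fin k), (∑ j ∈ s, (σ j : ℤ) • y j) x = ∑ j ∈ s, (σ j : ℤ) • (y j x) := by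
        classical
        intro s
        induction s using Finset.induction_on with
        | empty => simp
        | insert i s hi ih =>
          rw [Finset.sum_insert hi, Finset.sum_insert hi, PiLp.add_apply, ih]
          rfl
      exact this univ
    rw [e3]
  simp only [h1, h2]
  rw [Finset.sum_comm, Finset.sum_comm (s := (univ : Finset (Fin k → ℤˣ))), Finset.sum_div,
    Finset.mul_sum]
  exact Finset.sum_le_sum fun x _ => hC k fun j => y j x

theorem torus_main {C t : ℝ} (hq : 1 ≤ q) (hC : Cot Y q C) (hC0 : 0 ≤ C) (e : ℕ) (ht0 : 0 < t)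
    (ht1 : t ≤ 1 / 2) (ht : 80 * t ^ 2 * n ≤ ((2 : ℝ) ^ e) ^ 2) {G : ℝ} (hG : 0 ≤ G)
    (hG1 : (n : ℝ) ^ (1 / q) * (20 * 2 ^ e) ≤ G * m / 2) (hG2 : C * (4 / t) ≤ G) :
    MCI Y q G n m := by
  classical
  haveI : Fact (1 ≤ ENNReal.ofReal q) := ⟨by simpa using hq⟩
  have hq0 : 0 < q := by linarith
  intro f
  set F : ZZ n m Y (ENNReal.ofReal q) := WithLp.toLp _ f with hF
  set a := act n m Y hq with ha
  have hX : ∀ v : Fin n → ℤ, ∀ x, (a.T (a.X v - 1) F) x = f (x + red v) - f x := by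
    intro v x
    rw [T_sub, T_one, PiLp.sub_apply]
    congr 1
    have : a.T (a.X v) F = tr v F := by
      change (AddMonoidAlgebra.lift ℝ _ _ (trHom (ENNReal.ofReal q))) (AddMonoidAlgebra.single v 1) F = _
      rw [AddMonoidAlgebra.lift_single, one_smul]
      rfl
    rw [this]
    rfl
  have hcst : ∀ v : Fin n → ℤ, cst a F v ^ q = ∑ x, ‖f (x + red v) - f x‖ ^ q := by
    intro v
    unfold cst
    rw [nrm_pow hq]
    exact Finset.sum_congr rfl fun x _ => by rw [hX]
  have h1 := action_main (a := a) hq (cot_ZZ hq hC) hC0 e ht0 ht1 ht (m / 2) F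
  have hL : ∀ j : Fin n, ‖a.T (xj a j ^ (m / 2) - 1) F‖ ^ q =
      ∑ x : Fin n → ZMod m, ‖f (x + (m / 2) • Pi.single j 1) - f x‖ ^ q := by
    intro j
    rw [xj_pow]
    have h2 := hcst ((m / 2) • Pi.single j 1)
    unfold cst at h2
    rw [h2]
    apply Finset.sum_congr rfl
    intro x _
    have e2 : (red ((m / 2) • Pi.single j (1 : ℤ)) : Fin n → ZMod m) = (m / 2) • Pi.single j 1 := by
      funext i
      have e3 : (red ((m / 2) • Pi.single j (1 : ℤ)) : Fin n → ZMod m) i =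
          (((m / 2 : ℕ) • (Pi.single j (1 : ℤ) : Fin n → ℤ) i : ℤ) : ZMod m) := rfl
      rw [e3, Pi.smul_apply]
      by_cases h : i = j
      · subst h
        rw [Pi.single_eq_same, Pi.single_eq_same, nsmul_eq_mul, nsmul_eq_mul, mul_one, mul_one,
          Int.cast_natCast]
      · rw [Pi.single_eq_of_ne h, Pi.single_eq_of_ne h, smul_zero, smul_zero, Int.cast_zero]
    rw [e2]
  simp only [hL] at h1
  have hD : Del a q F = (∑ x : Fin n → ZMod m,
        ∑ ε ∈ Fintype.piFinset (fun _ : Fin n => ({-1, 0, 1} : Finset ℤ)),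
          ‖f (x + fun j => (ε j : ZMod m)) - f x‖ ^ q) / 3 ^ n := by
    unfold Del
    simp only [hcst]
    rw [Finset.sum_comm]
    rfl
  have hDel := Del_nonneg (a := a) q F
  have hm0 : (0 : ℝ) < m := by exact_mod_cast Nat.pos_of_ne_zero (NeZero.ne m)
  have hmn0 : (0 : ℝ) < (m : ℝ) ^ n := by positivity
  have hGm : 0 ≤ G * m / 2 := by positivity
  have hM : ((m / 2 : ℕ) : ℝ) ≤ m / 2 := by
    have := @Nat.cast_div_le ℝ _ _ _ m 2
    simpa using this
  have h3 : (n : ℝ) * (20 * 2 ^ e) ^ q ≤ (G * m / 2) ^ q := by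
    have h4 := Real.rpow_le_rpow (by positivity) hG1 hq0.le
    rwa [Real.mul_rpow (by positivity) (by positivity), ← Real.rpow_mul (by positivity),
      one_div_mul_cancel hq0.ne', Real.rpow_one] at h4
  have h5 : (((m / 2 : ℕ) : ℝ) * C * (4 / t)) ^ q ≤ (G * m / 2) ^ q := by
    apply Real.rpow_le_rpow (by positivity) _ hq0.le
    calc ((m / 2 : ℕ) : ℝ) * C * (4 / t) = ((m / 2 : ℕ) : ℝ) * (C * (4 / t)) := by ring
      _ ≤ (m / 2) * G := mul_le_mul hM hG2 (by positivity) (by positivity)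
      _ = G * m / 2 := by ring
  have h2q : (2 : ℝ) ^ q = 2 ^ (q - 1) * 2 := by
    rw [← Real.rpow_add_one (by norm_num)]; congr 1; ring
  have h6 : ∑ j : Fin n, ∑ x : Fin n → ZMod m, ‖f (x + (m / 2) • Pi.single j 1) - f x‖ ^ q ≤
      (G * m) ^ q * Del a q F := by
    refine h1.trans ?_
    apply mul_le_mul_of_nonneg_right _ hDel
    calc (2 : ℝ) ^ (q - 1) * (n * (20 * 2 ^ e) ^ q + (((m / 2 : ℕ) : ℝ) * C * (4 / t)) ^ q)
        ≤ 2 ^ (q - 1) * ((G * m / 2) ^ q + (G * m / 2) ^ q) :=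
          mul_le_mul_of_nonneg_left (add_le_add h3 h5) (by positivity)
      _ = 2 ^ q * (G * m / 2) ^ q := by rw [h2q]; ring
      _ = (G * m) ^ q := by
          rw [← Real.mul_rpow (by norm_num) hGm]; congr 1; ring
  rw [← Finset.sum_div, div_le_iff₀ hmn0]
  refine h6.trans (le_of_eq ?_)
  rw [hD, Real.mul_rpow hG hm0.le]
  field_simp

end

end Pool.Agent.H16.GC
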