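import Mathlib
import Pool.Agent.H16.GC.Torus

set_option autoImplicit false

namespace Pool.Agent.H16.GC
open Finset
open Pool.Agent.H16.MC (Cot MCI)

universe u

lemma dyadic {x : ℝ} (hx : 1 ≤ x) : ∃ e : ℕ, x ≤ 2 ^ e ∧ (2 : ℝ) ^ e ≤ 2 * x := by
  obtain ⟨e, h1, h2⟩ := exists_nat_pow_near hx (by norm_num : (1 : ℝ) < 2)
  refine ⟨e + 1, h2.le, ?_⟩
  rw [pow_succ]
  linarith

theorem gen_main {Y : Type u} [NormedAddCommGroup Y] [NormedSpace ℝ Y] {q C : ℝ} (hq : 2 ≤ q)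
    (hC : Cot Y q C) (hC0 : 0 ≤ C) (n m : ℕ) [NeZero m] :
    MCI Y q (400 * (1 + C) * (1 + √((n : ℝ) ^ (1 / 2 + 1 / q) / m))) n m := by
  have hq0 : 0 < q := by linarith
  have hm1 : (1 : ℝ) ≤ m := by exact_mod_cast Nat.one_le_iff_ne_zero.mpr (NeZero.ne m)
  have hm0 : (0 : ℝ) < m := by linarith
  rcases Nat.eq_zero_or_pos n with hn | hn
  · subst hn
    intro f
    simp only [Finset.univ_eq_empty, Finset.sum_empty]
    have : 0 ≤ 400 * (1 + C) * (1 + √(((0 : ℕ) : ℝ) ^ (1 / 2 + 1 / q) / m)) := by positivity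
    have h2 : 0 ≤ ∑ x : Fin 0 → ZMod m,
        ∑ ε ∈ Fintype.piFinset (fun _ : Fin 0 => ({-1, 0, 1} : Finset ℤ)),
          ‖f (x + fun j => (ε j : ZMod m)) - f x‖ ^ q :=
      Finset.sum_nonneg fun _ _ => Finset.sum_nonneg fun _ _ => Real.rpow_nonneg (norm_nonneg _) _
    positivity
  have hn1 : (1 : ℝ) ≤ n := by exact_mod_cast hn
  have hn0 : (0 : ℝ) < n := by linarith
  set A : ℝ := (n : ℝ) ^ (1 / 2 + 1 / q) with hA
  have hA0 : 0 < A := Real.rpow_pos_of_pos hn0 _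
  set R : ℝ := √(A / m) with hR
  have hR0 : 0 ≤ R := Real.sqrt_nonneg _
  set G : ℝ := 400 * (1 + C) * (1 + R) with hG
  have hCR : 0 ≤ C * R := mul_nonneg hC0 hR0
  have hG0 : 0 ≤ G := by positivity
  have hG400 : 400 ≤ G := by nlinarith
  have hGC : 400 * C ≤ G := by nlinarith
  have hGR : 400 * R ≤ G := by nlinarith
  have hGCR : 400 * (C * R) ≤ G := by nlinarith
  have hsq : √(n : ℝ) = (n : ℝ) ^ (1 / 2 : ℝ) := Real.sqrt_eq_rpow _
  have hs0 : 0 < √(n : ℝ) := Real.sqrt_pos.mpr hn0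
  have hs1 : 1 ≤ √(n : ℝ) := Real.one_le_sqrt.mpr hn1
  have hss : √(n : ℝ) * √(n : ℝ) = n := Real.mul_self_sqrt hn0.le
  have hAq : (n : ℝ) ^ (1 / q) * √(n : ℝ) = A := by
    rw [hsq, ← Real.rpow_add hn0, hA]; congr 1; ring
  have hq1 : 1 ≤ q := by linarith
  rcases le_or_gt A m with hcase | hcase
  · obtain ⟨e, he1, he2⟩ := dyadic (x := 5 * √(n : ℝ)) (by linarith)
    refine torus_main hq1 hC hC0 e (t := 1 / 2) (by norm_num) le_rfl ?_ hG0 ?_ ?_
    · have : (5 * √(n : ℝ)) ^ 2 ≤ ((2 : ℝ) ^ e) ^ 2 := pow_le_pow_left₀ (by positivity) he1 2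
      nlinarith
    · have h1 : (n : ℝ) ^ (1 / q) * (20 * 2 ^ e) ≤ (n : ℝ) ^ (1 / q) * (20 * (2 * (5 * √(n : ℝ)))) :=
        mul_le_mul_of_nonneg_left (by linarith) (by positivity)
      have h2 : (n : ℝ) ^ (1 / q) * (20 * (2 * (5 * √(n : ℝ)))) = 200 * A := by
        rw [← hAq]; ring
      have h3 : 400 * (m : ℝ) ≤ G * m := mul_le_mul_of_nonneg_right hG400 hm0.le
      linarith
    · linarith
  · set B : ℝ := (n : ℝ) ^ (1 / 2 - 1 / q) with hB
    have hB1 : 1 ≤ B := by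
      apply Real.one_le_rpow hn1
      rw [sub_nonneg, one_div_le_one_div hq0 (by norm_num)]
      exact hq
    have hB0 : 0 < B := by linarith
    have hAB : A * B = n := by
      rw [hA, hB, ← Real.rpow_add hn0]
      have : (1 / 2 + 1 / q + (1 / 2 - 1 / q) : ℝ) = 1 := by ring
      rw [this, Real.rpow_one]
    have hqB : (n : ℝ) ^ (1 / q) * ((n : ℝ) ^ (1 / q) * B) = A := by
      rw [hB, ← Real.rpow_add hn0, ← Real.rpow_add hn0, hA]
      congr 1; ring
    set κ : ℝ := √(m * B) with hκ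
    have hκ1 : 1 ≤ κ := Real.one_le_sqrt.mpr (by nlinarith)
    have hκ0 : 0 < κ := by linarith
    have hκκ : κ * κ = m * B := Real.mul_self_sqrt (by positivity)
    have hRR : R * R = A / m := Real.mul_self_sqrt (by positivity)
    have hκs : κ ≤ √(n : ℝ) := by
      apply Real.sqrt_le_sqrt
      rw [← hAB]
      exact mul_le_mul_of_nonneg_right hcase.le hB0.le
    have hRκ : R * κ = √(n : ℝ) := by
      rw [hR, hκ, ← Real.sqrt_mul (by positivity)]
      congr 1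
      rw [← hAB]
      field_simp
    obtain ⟨e, he1, he2⟩ := dyadic hκ1
    have he0 : (0 : ℝ) < 2 ^ e := by positivity
    refine torus_main hq1 hC hC0 e (t := 2 ^ e / (20 * √(n : ℝ))) (by positivity) ?_ ?_ hG0 ?_ ?_
    · rw [div_le_iff₀ (by positivity)]
      linarith
    · have e1 : 80 * ((2 : ℝ) ^ e / (20 * √(n : ℝ))) ^ 2 * n = ((2 : ℝ) ^ e) ^ 2 / 5 := by
        rw [div_pow, mul_pow, sq (√(n : ℝ)), hss]
        field_simp
        norm_num
      rw [e1]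
      have : 0 < ((2 : ℝ) ^ e) ^ 2 := by positivity
      linarith
    · have h1 : (n : ℝ) ^ (1 / q) * (20 * 2 ^ e) ≤ (n : ℝ) ^ (1 / q) * (20 * (2 * κ)) :=
        mul_le_mul_of_nonneg_left (by linarith) (by positivity)
      have h2 : (n : ℝ) ^ (1 / q) * κ = R * m := by
        have hl : 0 ≤ (n : ℝ) ^ (1 / q) * κ := by positivity
        have hr : 0 ≤ R * m := by positivity
        have h3 : ((n : ℝ) ^ (1 / q) * κ) ^ 2 = (R * m) ^ 2 := by
          calc ((n : ℝ) ^ (1 / q) * κ) ^ 2 = (n : ℝ) ^ (1 / q) * (n : ℝ) ^ (1 / q) * (κ * κ) := by ring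
            _ = (n : ℝ) ^ (1 / q) * ((n : ℝ) ^ (1 / q) * B) * m := by rw [hκκ]; ring
            _ = A * m := by rw [hqB]
            _ = (R * R) * m * m := by rw [hRR]; field_simp
            _ = (R * m) ^ 2 := by ring
        exact (pow_left_inj₀ hl hr (by norm_num)).mp h3
      have h3 : 400 * R * m ≤ G * m := mul_le_mul_of_nonneg_right hGR hm0.le
      nlinarith
    · have h1 : 4 / ((2 : ℝ) ^ e / (20 * √(n : ℝ))) = 80 * √(n : ℝ) / 2 ^ e := by
        field_simp; norm_num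
      have h2 : 80 * √(n : ℝ) / 2 ^ e ≤ 80 * R := by
        rw [div_le_iff₀ he0, ← hRκ]
        have : R * κ ≤ R * 2 ^ e := mul_le_mul_of_nonneg_left he1 hR0
        linarith
      rw [h1]
      have h3 : C * (80 * √(n : ℝ) / 2 ^ e) ≤ C * (80 * R) := mul_le_mul_of_nonneg_left h2 hC0
      nlinarith

end Pool.Agent.H16.GC
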